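import Pool.Agent.Helper69.SD.Par

/-! # SD: naturality (piece SD-N) -/

set_option autoImplicit false
set_option linter.unusedVariables false
set_option linter.unusedSectionVars false

namespace Pool.Agent.Helper69.SD

open MvPolynomial Module Matrix QuadraticMap

variable {R R' : Type} [CommRing R] [Algebra ℂ R] [CommRing R'] [Algebra ℂ R'] (φ : R →ₐ[ℂ] R')
  (D : Dat)

theorem map_cc (u : ℂ) : φ (cc R u) = cc R' u := φ.commutes u

theorem map_cx (i j : Fin 3) (v : Fin 5 → R) : φ (D.cx R i j v) = D.cx R' i j (φ ∘ v) := by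
  simp [cx_apply, map_cc]

theorem map_cy (i j : Fin 3) (v : Fin 5 → R) : φ (D.cy R i j v) = D.cy R' i j (φ ∘ v) := by
  simp [cy_apply, map_cc]

theorem map_Bq (i : Fin 3) (v : Fin 5 → R) : φ (D.Bq R i v) = D.Bq R' i (φ ∘ v) := by
  simp [Bq_apply, map_cx]

theorem map_qx (i : Fin 3) (v : Fin 5 → R) : φ (D.qx R i v) = D.qx R' i (φ ∘ v) := by
  simp [qx_apply, map_cx]

theorem map_qy (i : Fin 3) (v : Fin 5 → R) : φ (D.qy R i v) = D.qy R' i (φ ∘ v) := by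
  simp [qy_apply, map_cy]

theorem map_l5 (i : Fin 3) (v : Fin 5 → R) : φ (D.l5 R i v) = D.l5 R' i (φ ∘ v) := by
  simp [l5_apply, map_cc]

theorem map_kap (t : Fin 2 → R) : φ (D.kap t) = D.kap (φ ∘ t) := by
  simp [Dat.kap, map_cc]

theorem map_n (t : Fin 2 → R) (i j : Fin 3) : φ (D.n t i j) = D.n (φ ∘ t) i j := by
  simp [Dat.n, map_cc]

theorem map_dt (t : Fin 2 → R) : φ (D.dt t) = D.dt (φ ∘ t) := by
  simp [Dat.dt, map_n]

theorem map_del (t : Fin 2 → R) : φ (D.del t) = D.del (φ ∘ t) := by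
  simp [Dat.del, map_kap, map_dt, map_cc, map_ofNat φ]

theorem map_H1 (t : Fin 2 → R) (v : Fin 5 → R) : φ (D.H1 t v) = D.H1 (φ ∘ t) (φ ∘ v) := by
  simp [H1_apply, map_Bq]

theorem map_H2 (t : Fin 2 → R) (v : Fin 5 → R) : φ (D.H2 t v) = D.H2 (φ ∘ t) (φ ∘ v) := by
  simp [H2_apply, map_Bq, map_qx, map_qy, map_l5, map_kap, map_cc]

theorem map_H (t : Fin 2 → R) (i : Fin 2) (v : Fin 5 → R) :
    φ (D.H t i v) = D.H (φ ∘ t) i (φ ∘ v) := by
  fin_cases i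
  · exact map_H1 φ D t v
  · exact map_H2 φ D t v

theorem map_emb (v : Fin 4 → R) : φ ∘ (emb v) = emb (φ ∘ v) := by
  funext i
  fin_cases i <;> simp [emb_apply]

theorem map_Th (t : Fin 2 → R) (v : Fin 4 → R) : φ ∘ (D.Th t v) = D.Th (φ ∘ t) (φ ∘ v) := by
  funext i
  fin_cases i <;> simp [Th_apply, map_kap, map_n, map_cc, map_ofNat φ]

theorem map_vh (t : Fin 2 → R) (S P : R) : φ ∘ (D.vh t S P) = D.vh (φ ∘ t) (φ S) (φ P) := by
  funext i
  fin_cases i <;> simp [Dat.vh, map_n]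

theorem map_f (t : Fin 2 → R) (s : Fin 5 → R) (i : Fin 2) (v : Fin 4 → R) :
    φ (D.f t s i v) = D.f (φ ∘ t) (φ ∘ s) i (φ ∘ v) := by
  have h : ∀ u u' : Fin 5 → R, φ ∘ (u + u') = φ ∘ u + φ ∘ u' := by
    intro u u'
    funext j
    simp
  simp only [Dat.f, polar, map_sub, map_H, h, map_emb]

theorem map_h (t : Fin 2 → R) (i : Fin 2) (v : Fin 4 → R) :
    φ (D.h t i v) = D.h (φ ∘ t) i (φ ∘ v) := by
  simp only [Dat.h, map_H, map_emb]

theorem map_k0 (t : Fin 2 → R) (s : Fin 5 → R) (v : Fin 4 → R) :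
    φ (D.k0 t s v) = D.k0 (φ ∘ t) (φ ∘ s) (φ ∘ v) := by
  simp only [Dat.k0, map_sub, map_mul, map_f, map_Th]

theorem map_k1 (t : Fin 2 → R) (s : Fin 5 → R) (v : Fin 4 → R) :
    φ (D.k1 t s v) = D.k1 (φ ∘ t) (φ ∘ s) (φ ∘ v) := by
  simp only [Dat.k1, map_sub, map_mul, map_f, map_Th, map_h]

theorem map_k2 (t : Fin 2 → R) (s : Fin 5 → R) (v : Fin 4 → R) :
    φ (D.k2 t s v) = D.k2 (φ ∘ t) (φ ∘ s) (φ ∘ v) := by
  simp only [Dat.k2, map_sub, map_mul, map_f, map_h]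

theorem map_sig (t : Fin 2 → R) (s : Fin 5 → R) (v : Fin 4 → R) :
    φ (D.sig t s v) = D.sig (φ ∘ t) (φ ∘ s) (φ ∘ v) := by
  simp only [Dat.sig, map_sub, map_mul, map_pow, map_k1, map_k2, map_del]

theorem map_Q (p : Fin 6 → R) (i : Fin 3) : φ (D.Q p i) = D.Q (φ ∘ p) i := by
  have h : φ ∘ (v5 p) = v5 (φ ∘ p) := rfl
  simp only [Q_apply, map_add, map_Bq, h]
  split_ifs <;> simp

theorem map_C (p : Fin 6 → R) (i : Fin 3) : φ (D.C p i) = D.C (φ ∘ p) i := by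
  have h : φ ∘ (v5 p) = v5 (φ ∘ p) := rfl
  simp [Dat.C, map_qx, map_qy, map_cc, h]

theorem map_cubic (p : Fin 6 → R) : φ (D.cubic p) = D.cubic (φ ∘ p) := by
  have h : φ ∘ (v5 p) = v5 (φ ∘ p) := rfl
  simp only [Dat.cubic, det_fin_three, map_add, map_mul, map_sub, map_sum, map_Q, mx_apply,
    my_apply, map_cx, map_cy, h, cc_def, map_cc]
  simp [map_cx, map_cy, h]

end Pool.Agent.Helper69.SD
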