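import Pool.Agent.Helper69.SD.Par
import Pool.Agent.Helper16.CubicEngine

/-! # SD: setup -/

set_option autoImplicit false
set_option linter.unusedVariables false
set_option linter.unusedSectionVars false

namespace Pool.Agent.Helper69.SD

open MvPolynomial Module Matrix QuadraticMap Pool.Agent.Helper16

/-- `ℂ[T₁, T₂]` -/
abbrev P2 : Type := MvPolynomial (Fin 2) ℂ

/-- `ℂ[T₁, T₂, S, P]` -/
abbrev R4 : Type := MvPolynomial (Fin 4) ℂ

/-- the cubic form as a polynomial -/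
noncomputable def Dat.F (D : Dat) : MvPolynomial (Fin 6) ℂ := D.cubic X

/-- a rational section -/
structure Dat.Sec (D : Dat) (s : Fin 6 → P2) : Prop where
  cub : D.cubic s = 0
  w0 : s 4 ≠ 0
  q0 : D.Q s 0 ≠ 0
  q1 : D.Q s 1 = X 0 * D.Q s 0
  q2 : D.Q s 2 = X 1 * D.Q s 0

variable {D : Dat} {s : Fin 6 → P2}

/-- the section lies on the third quadric -/
theorem Dat.Sec.C0 (h : D.Sec s) : ∑ i, tv (X : Fin 2 → P2) i * D.C s i = 0 := by
  have h1 := w_mul_cubic D s
  rw [h.cub, mul_zero] at h1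
  have h2 : ∑ i, D.Q s i * D.C s i = D.Q s 0 * ∑ i, tv (X : Fin 2 → P2) i * D.C s i := by
    simp only [Fin.sum_univ_three, h.q1, h.q2, tv]
    simp
    ring
  rw [h2] at h1
  exact (mul_eq_zero.1 h1.symm).resolve_left h.q0

theorem Dat.Sec.H (h : D.Sec s) (i : Fin 2) : D.H (X : Fin 2 → P2) i (v5 s) = 0 := by
  fin_cases i
  · change D.H1 X (v5 s) = 0
    rw [H1_eq, h.q1, h.q2]
    ring
  · change D.H2 X (v5 s) = 0
    rw [H2_eq, h.C0, h.q1]
    ring

end Pool.Agent.Helper69.SD
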