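import Pool.Agent.Helper69.SD.Setup
import Pool.Agent.Helper69.SD.Nat

/-! # SD: the discriminant `δ` is not a square (piece SD-4) -/

set_option autoImplicit false
set_option linter.unusedVariables false
set_option linter.unusedSectionVars false

namespace Pool.Agent.Helper69.SD

open MvPolynomial Module Matrix QuadraticMap Pool.Agent.Helper16

variable {D : Dat}

/-- the line through `x` in the direction `i` -/
private noncomputable def sqLine (x : Fin 6 → ℂ) (i : Fin 6) :
    MvPolynomial (Fin 6) ℂ →ₐ[ℂ] Polynomial ℂ :=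
  aeval fun j => Polynomial.C (x j) + if j = i then Polynomial.X else 0

private theorem sqLine_eval (x : Fin 6 → ℂ) (i : Fin 6) (F : MvPolynomial (Fin 6) ℂ) :
    Polynomial.eval 0 (sqLine x i F) = eval x F := by
  induction F using MvPolynomial.induction_on with
  | C a => simp [sqLine]
  | add p q hp hq => simp [hp, hq]
  | mul_X p j hp =>
    rw [map_mul, Polynomial.eval_mul, hp, map_mul]
    congr 1
    simp only [sqLine, aeval_X, eval_X]
    split_ifs <;> simp

private theorem sqLine_der (x : Fin 6 → ℂ) (i : Fin 6) (F : MvPolynomial (Fin 6) ℂ) :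
    Polynomial.eval 0 (Polynomial.derivative (sqLine x i F)) = eval x (pderiv i F) := by
  induction F using MvPolynomial.induction_on with
  | C a => simp [sqLine]
  | add p q hp hq => simp [hp, hq]
  | mul_X p j hp =>
    have hX : Polynomial.eval 0 (Polynomial.derivative (sqLine x i (X j))) =
        eval x (pderiv i (X j)) := by
      rw [sqLine, aeval_X, pderiv_X]
      by_cases h : j = i
      · subst h
        simp
      · rw [if_neg h, Pi.single_eq_of_ne h]
        simp
    rw [map_mul, Polynomial.derivative_mul, Polynomial.eval_add, Polynomial.eval_mul,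
      Polynomial.eval_mul, hp, sqLine_eval, sqLine_eval, pderiv_mul, map_add, map_mul, map_mul, hX]

/-- piece `SD-4` (a): smoothness at the point `(0, .., 0, z = 1)`: all first derivatives of `F` there are zero except
the one with respect to `w`, which is `l 0 5` (`D.Q X 0 = ... + w z`, everything else vanishes to order two at this point). -/
theorem l05_ne (hs : Smooth D.F) : D.l 0 5 ≠ 0 := by
  intro h0
  obtain ⟨i, hi⟩ := hs (Pi.single 5 1) (by
    intro h
    have := congrFun h 5
    simp at this)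
  apply hi
  rw [← sqLine_der, Dat.F, map_cubic]
  have hX : ((sqLine (Pi.single 5 1) i) ∘ (X : Fin 6 → MvPolynomial (Fin 6) ℂ)) =
      fun j => Polynomial.C ((Pi.single 5 1 : Fin 6 → ℂ) j) + if j = i then Polynomial.X else 0 := by
    funext j
    simp [sqLine]
  rw [hX]
  have hcc : ∀ u : ℂ, cc (Polynomial ℂ) u = Polynomial.C u := fun u => rfl
  simp only [Dat.cubic, det_fin_three, Fin.sum_univ_three, Q_apply, mx_apply, my_apply,
    Bq_apply, cc_def, cx_apply, cy_apply, v5, hcc, Fin.sum_univ_six]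
  fin_cases i <;> simp [h0, Polynomial.derivative_mul]

private theorem sq_kap_hom (D : Dat) : D.kap (X : Fin 2 → P2) =
    C (D.l 0 5) + (X 0 * C (D.l 1 5) + X 1 * C (D.l 2 5)) := by
  rw [Dat.kap, add_assoc]
  rfl

private theorem sq_n_hom (D : Dat) (i j : Fin 3) : (D.n (X : Fin 2 → P2) i j).IsHomogeneous 1 := by
  have h : ∀ (k : Fin 2) (u : ℂ), ((X k : P2) * cc P2 u).IsHomogeneous 1 := fun k u =>
    (isHomogeneous_X ℂ k).mul (isHomogeneous_C (Fin 2) u)
  exact (h 0 _).sub (h 1 _)

private theorem sq_dt_hom (D : Dat) : (D.dt (X : Fin 2 → P2)).IsHomogeneous 2 :=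
  ((sq_n_hom D 0 0).mul (sq_n_hom D 1 1)).sub ((sq_n_hom D 0 1).mul (sq_n_hom D 1 0))

/-- piece `SD-4` (b): `δ = κ² + 4ab det n` is not a square in the fraction field.  `κ = κ₀ + κ₁T₁ + κ₂T₂` with `κ₀ = l 0 5 ≠ 0`;
`det n = D.dt X` is a nonzero form of degree two in `T₁, T₂` (its value at `c` is `D.dt c`, `map_dt`).  If `m² δ = n²`, `m ≠ 0`, then
`m ∣ n` (unique factorisation), so `δ = r²`, `(r - κ)(r + κ) = 4ab det n` is homogeneous and nonzero, so both factors
are homogeneous (`hom_factor` in `Helper16/CubicPoly.lean`), of degrees `(1,1)`, `(0,2)` or `(2,0)`; their difference is `2κ`, which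
has a nonzero constant term and no term of degree two: contradiction in all three cases. -/
theorem del_nonsq (hs : Smooth D.F) (ha : D.a ≠ 0) (hb : D.b ≠ 0) (hn : ∃ c : Fin 2 → ℂ, D.dt c ≠ 0)
    (m n : P2) (h : m ^ 2 * D.del (X : Fin 2 → P2) = n ^ 2) : m = 0 := by
  by_contra hm
  have hk0 := l05_ne hs
  have hdt : D.dt (X : Fin 2 → P2) ≠ 0 := by
    intro h1
    obtain ⟨c, hc⟩ := hn
    apply hc
    have h2 := map_dt (aeval c : P2 →ₐ[ℂ] ℂ) D X
    rw [h1, map_zero] at h2
    have h3 : (⇑(aeval c : P2 →ₐ[ℂ] ℂ) ∘ X) = c := by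
      funext i
      simp
    rw [h3] at h2
    exact h2.symm
  have hmn : m ∣ n := by
    have : m ^ 2 ∣ n ^ 2 := ⟨_, h.symm⟩
    exact (UniqueFactorizationMonoid.pow_dvd_pow_iff_dvd two_ne_zero).1 this
  obtain ⟨r, rfl⟩ := hmn
  have hr : D.del (X : Fin 2 → P2) = r ^ 2 := by
    have : m ^ 2 * D.del (X : Fin 2 → P2) = m ^ 2 * r ^ 2 := by rw [h]; ring
    exact mul_left_cancel₀ (pow_ne_zero 2 hm) this
  set κ := D.kap (X : Fin 2 → P2) with hκ
  have hf : (r - κ) * (r + κ) = C (4 * D.a * D.b) * D.dt X := by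
    have h1 : D.del (X : Fin 2 → P2) = κ ^ 2 + C (4 * D.a * D.b) * D.dt X := by
      rw [Dat.del, ← hκ, C_mul, C_mul]
      rfl
    rw [h1] at hr
    linear_combination -hr
  have hc0 : (C (4 * D.a * D.b) : P2) ≠ 0 := by
    rw [Ne, C_eq_zero]
    exact mul_ne_zero (mul_ne_zero (by norm_num) ha) hb
  have hhom : ((r - κ) * (r + κ)).IsHomogeneous 2 := by
    rw [hf]
    have := (isHomogeneous_C (Fin 2) (4 * D.a * D.b)).mul (sq_dt_hom D)
    simpa using this
  have hne : (r - κ) * (r + κ) ≠ 0 := by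
    rw [hf]
    exact mul_ne_zero hc0 hdt
  obtain ⟨a, b, hpa, hpb, hab⟩ := hom_factor hhom hne
  have hp0 : r - κ ≠ 0 := left_ne_zero_of_mul hne
  have hq0 : r + κ ≠ 0 := right_ne_zero_of_mul hne
  have hkk := sq_kap_hom D
  rw [← hκ] at hkk
  have hC : (C (D.l 0 5) : P2).IsHomogeneous 0 := isHomogeneous_C _ _
  have hL : ((X 0 : P2) * C (D.l 1 5) + X 1 * C (D.l 2 5)).IsHomogeneous 1 := by
    have h1 : ∀ (k : Fin 2) (u : ℂ), ((X k : P2) * C u).IsHomogeneous 1 := fun k u =>
      (isHomogeneous_X ℂ k).mul (isHomogeneous_C (Fin 2) u)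
    exact (h1 0 _).add (h1 1 _)
  -- components of `2 κ = (r + κ) - (r - κ)`
  have hcomp : ∀ k, homogeneousComponent k (r + κ) - homogeneousComponent k (r - κ) =
      2 * (homogeneousComponent k (C (D.l 0 5) : P2) +
        homogeneousComponent k ((X 0 : P2) * C (D.l 1 5) + X 1 * C (D.l 2 5))) := by
    intro k
    rw [← map_add, ← hkk, ← map_sub, show r + κ - (r - κ) = 2 * κ by ring, two_mul, two_mul,
      map_add]
  have hcp : ∀ {p : P2} {d : ℕ} (k : ℕ), p.IsHomogeneous d →
      homogeneousComponent k p = if k = d then p else 0 := fun k hp =>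
    homogeneousComponent_of_mem ((mem_homogeneousSubmodule _ _).2 hp)
  have h0 := hcomp 0
  have h2 := hcomp 2
  rw [hcp 0 hpa, hcp 0 hpb, hcp 0 hC, hcp 0 hL] at h0
  rw [hcp 2 hpa, hcp 2 hpb, hcp 2 hC, hcp 2 hL] at h2
  have hl0 : (C (D.l 0 5) : P2) ≠ 0 := by
    rw [Ne, C_eq_zero]
    exact hk0
  have h20 : (2 : P2) ≠ 0 := two_ne_zero
  have ha2 : a ≤ 2 := by omega
  interval_cases a
  · have hb2 : b = 2 := by omega
    subst hb2
    simp at h2
    exact hq0 h2
  · have hb2 : b = 1 := by omega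
    subst hb2
    simp at h0
    exact hk0 h0
  · have hb2 : b = 0 := by omega
    subst hb2
    simp at h2
    exact hp0 (by linear_combination -h2)

end Pool.Agent.Helper69.SD
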