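import Pool.Agent.Helper69.SD.Setup
import Pool.Agent.Helper69.SD.Nat

/-! # SD: the section is a smooth point of the fibre (piece SD-3) -/

set_option autoImplicit false
set_option linter.unusedVariables false
set_option linter.unusedSectionVars false

namespace Pool.Agent.Helper69.SD

open MvPolynomial Module Matrix QuadraticMap Pool.Agent.Helper16

variable {D : Dat} {s : Fin 6 → P2}

/-- the first derivatives of a smooth form have no common nonzero zero in a domain -/
theorem smooth_dom {A : Type} [CommRing A] [IsDomain A] [Algebra ℂ A] {F : MvPolynomial (Fin 6) ℂ}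
    (hs : Smooth F) {z : Fin 6 → A} (hz : z ≠ 0) : ∃ i, aeval z (pderiv i F) ≠ 0 := by
  by_contra hcon
  push Not at hcon
  obtain ⟨I, hI⟩ : ∃ I : Ideal (MvPolynomial (Fin 6) ℂ),
    I = Ideal.span (Set.range fun i => pderiv i F) := ⟨_, rfl⟩
  have hker : ∀ g ∈ I, aeval z g = 0 := by
    intro g hg
    have h1 : I ≤ RingHom.ker (aeval z : MvPolynomial (Fin 6) ℂ →ₐ[ℂ] A) := by
      rw [hI, Ideal.span_le]
      rintro _ ⟨i, rfl⟩
      exact hcon i
    exact h1 hg
  apply hz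
  funext j
  have hrad : (X j : MvPolynomial (Fin 6) ℂ) ∈ I.radical := by
    rw [← vanishingIdeal_zeroLocus_eq_radical (K := ℂ), mem_vanishingIdeal_iff]
    intro x hx
    have hx0 : x = 0 := by
      by_contra hne
      obtain ⟨i, hi⟩ := hs x hne
      apply hi
      have h2 := hx (pderiv i F) (by rw [hI]; exact Ideal.subset_span ⟨i, rfl⟩)
      rwa [aeval_eq_eval] at h2
    rw [hx0, aeval_X]
    rfl
  obtain ⟨k, hk⟩ := hrad
  have h3 := hker _ hk
  rw [map_pow, aeval_X] at h3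
  exact eq_zero_of_pow_eq_zero h3

section der

variable {A : Type} [CommRing A] [Algebra ℂ A] (z u : Fin 6 → A)

/-- the derivative at the point `z` in the direction `u` -/
noncomputable def dd (g : MvPolynomial (Fin 6) ℂ) : A := ∑ m, u m * aeval z (pderiv m g)

theorem dd_add (g h : MvPolynomial (Fin 6) ℂ) : dd z u (g + h) = dd z u g + dd z u h := by
  simp only [dd, map_add, mul_add, Finset.sum_add_distrib]

theorem dd_sub (g h : MvPolynomial (Fin 6) ℂ) : dd z u (g - h) = dd z u g - dd z u h := by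
  simp only [dd, map_sub, mul_sub, Finset.sum_sub_distrib]

theorem dd_mul (g h : MvPolynomial (Fin 6) ℂ) :
    dd z u (g * h) = aeval z g * dd z u h + aeval z h * dd z u g := by
  simp only [dd, Derivation.leibniz, map_add, smul_eq_mul, map_mul, mul_add,
    Finset.sum_add_distrib, Finset.mul_sum]
  congr 1 <;> refine Finset.sum_congr rfl fun i _ => ?_ <;> ring

theorem dd_zero : dd z u 0 = 0 := by simp [dd]

theorem dd_C (c : ℂ) : dd z u (MvPolynomial.C c) = 0 := by simp [dd]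

theorem dd_cc (c : ℂ) : dd z u (cc (MvPolynomial (Fin 6) ℂ) c) = 0 := dd_C z u c

theorem dd_X (j : Fin 6) : dd z u (X j) = u j := by
  rw [dd, Finset.sum_eq_single j]
  · simp
  · intro m _ hm
    rw [pderiv_X_of_ne hm.symm]
    simp
  · intro h
    exact absurd (Finset.mem_univ j) h

theorem dd_sum {ι : Type} (S : Finset ι) (g : ι → MvPolynomial (Fin 6) ℂ) :
    dd z u (∑ i ∈ S, g i) = ∑ i ∈ S, dd z u (g i) := by
  classical
  induction S using Finset.induction_on with
  | empty => simp [dd_zero]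
  | insert a S ha ih => rw [Finset.sum_insert ha, Finset.sum_insert ha, dd_add, ih]

/-- a derivation of the ring of values -/
theorem dd_der (δ : Derivation ℂ A A) (g : MvPolynomial (Fin 6) ℂ) :
    dd z (fun m => δ (z m)) g = δ (aeval z g) := by
  induction g using MvPolynomial.induction_on with
  | C c =>
    rw [dd_C, aeval_C, Derivation.map_algebraMap]
  | add p q hp hq => rw [dd_add, hp, hq, map_add, map_add]
  | mul_X p n hp =>
    rw [dd_mul, hp, dd_X, aeval_X, map_mul, aeval_X, Derivation.leibniz, smul_eq_mul, smul_eq_mul]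

theorem aev_cx (i j : Fin 3) (D : Dat) :
    aeval z (D.cx (MvPolynomial (Fin 6) ℂ) i j (v5 X)) = D.cx A i j (v5 z) := by
  rw [map_cx]
  congr 1
  funext m
  simp [v5]

theorem aev_cy (i j : Fin 3) (D : Dat) :
    aeval z (D.cy (MvPolynomial (Fin 6) ℂ) i j (v5 X)) = D.cy A i j (v5 z) := by
  rw [map_cy]
  congr 1
  funext m
  simp [v5]

theorem dd_cx (i j : Fin 3) (D : Dat) :
    dd z u (D.cx (MvPolynomial (Fin 6) ℂ) i j (v5 X)) = D.cx A i j (v5 u) := by
  rw [cx_apply, cx_apply]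
  simp only [dd_add, dd_mul, dd_cc, v5, dd_X, mul_zero, add_zero]
  rw [show aeval z (cc (MvPolynomial (Fin 6) ℂ) (D.A i 0 j)) = cc A (D.A i 0 j) from map_cc _ _,
    show aeval z (cc (MvPolynomial (Fin 6) ℂ) (D.A i 1 j)) = cc A (D.A i 1 j) from map_cc _ _,
    show aeval z (cc (MvPolynomial (Fin 6) ℂ) (D.A i 2 j)) = cc A (D.A i 2 j) from map_cc _ _]

theorem dd_cy (i j : Fin 3) (D : Dat) :
    dd z u (D.cy (MvPolynomial (Fin 6) ℂ) i j (v5 X)) = D.cy A i j (v5 u) := by
  rw [cy_apply, cy_apply]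
  simp only [dd_add, dd_mul, dd_cc, v5, dd_X, mul_zero, add_zero]
  rw [show aeval z (cc (MvPolynomial (Fin 6) ℂ) (D.A i j 0)) = cc A (D.A i j 0) from map_cc _ _,
    show aeval z (cc (MvPolynomial (Fin 6) ℂ) (D.A i j 1)) = cc A (D.A i j 1) from map_cc _ _,
    show aeval z (cc (MvPolynomial (Fin 6) ℂ) (D.A i j 2)) = cc A (D.A i j 2) from map_cc _ _]

theorem aev_v5 (j : Fin 5) : aeval z (v5 (X : Fin 6 → MvPolynomial (Fin 6) ℂ) j) = v5 z j := by
  simp [v5]

theorem dd_v5 (j : Fin 5) : dd z u (v5 (X : Fin 6 → MvPolynomial (Fin 6) ℂ) j) = v5 u j := by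
  rw [v5, dd_X]; rfl

theorem v5_add (p q : Fin 6 → A) : v5 (p + q) = v5 p + v5 q := rfl

theorem dd_Bq (D : Dat) (i : Fin 3) : dd z u (D.Bq (MvPolynomial (Fin 6) ℂ) i (v5 X)) =
    D.Bq A i (v5 (z + u)) - D.Bq A i (v5 z) - D.Bq A i (v5 u) := by
  rw [Bq_apply]
  simp only [dd_add, dd_mul, dd_cx, dd_v5, aev_v5, aev_cx]
  simp only [Bq_apply, v5_add, map_add, Pi.add_apply]
  ring

theorem dd_qx (D : Dat) (i : Fin 3) : dd z u (D.qx (MvPolynomial (Fin 6) ℂ) i (v5 X)) =
    D.qx A i (v5 (z + u)) - D.qx A i (v5 z) - D.qx A i (v5 u) := by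
  rw [qx_apply]
  simp only [dd_sub, dd_mul, dd_cx, aev_cx]
  simp only [qx_apply, v5_add, map_add]
  ring

theorem dd_qy (D : Dat) (i : Fin 3) : dd z u (D.qy (MvPolynomial (Fin 6) ℂ) i (v5 X)) =
    D.qy A i (v5 (z + u)) - D.qy A i (v5 z) - D.qy A i (v5 u) := by
  rw [qy_apply]
  simp only [dd_sub, dd_mul, dd_cy, aev_cy]
  simp only [qy_apply, v5_add, map_add]
  ring

theorem dd_Q (D : Dat) (i : Fin 3) : dd z u (D.Q (X : Fin 6 → MvPolynomial (Fin 6) ℂ) i) =
    D.Q (z + u) i - D.Q z i - D.Q u i := by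
  rw [Q_apply, dd_add, dd_Bq, Q_apply, Q_apply, Q_apply]
  split_ifs
  · rw [dd_mul, dd_X, dd_X, aeval_X, aeval_X]
    simp only [Pi.add_apply]
    ring
  · rw [dd_zero]
    ring

theorem dd_CC (D : Dat) (i : Fin 3) : dd z u (D.C (X : Fin 6 → MvPolynomial (Fin 6) ℂ) i) =
    D.C (z + u) i - D.C z i - D.C u i := by
  have e : ∀ c : ℂ, aeval z (cc (MvPolynomial (Fin 6) ℂ) c) = cc A c := fun c => map_cc _ _
  rw [Dat.C]
  simp only [dd_add, dd_mul, dd_cc, dd_qx, dd_qy, dd_sum, dd_X, aeval_X, e, map_sum, map_mul,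
    mul_zero, add_zero]
  simp only [Dat.C, Pi.add_apply, mul_add, Finset.sum_add_distrib]
  ring

end der

/-- the two fibre quadrics, polarised, in terms of the derivatives -/
theorem polar_H1 (D : Dat) (z u : Fin 6 → P2) (t : Fin 2 → P2) :
    polar (D.H1 t) (v5 z) (v5 u) = t 0 * dd z u (D.Q X 2) - t 1 * dd z u (D.Q X 1) := by
  rw [polar, ← v5_add, H1_eq, H1_eq, H1_eq, dd_Q, dd_Q]
  ring

theorem polar_H2 (D : Dat) (z u : Fin 6 → P2) (t : Fin 2 → P2) :
    polar (D.H2 t) (v5 z) (v5 u) = t 0 * ∑ i, tv t i * dd z u (D.C X i) -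
      D.kap t * (t 0 * dd z u (D.Q X 0) - dd z u (D.Q X 1)) := by
  rw [polar, ← v5_add, H2_eq, H2_eq, H2_eq]
  simp only [dd_Q, dd_CC, Fin.sum_univ_three]
  ring

/-- the derivative of `w F = ∑ Q i C i` at a zero of `F` -/
theorem w_mul_dF (D : Dat) (z u : Fin 6 → P2) (h0 : D.cubic z = 0) :
    z 4 * dd z u D.F = ∑ i, (D.Q z i * dd z u (D.C X i) + D.C z i * dd z u (D.Q X i)) := by
  have h1 : dd z u (X 4 * D.F) = dd z u (∑ i, D.Q X i * D.C X i) := by
    rw [Dat.F, w_mul_cubic]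
  have hX : (aeval z : MvPolynomial (Fin 6) ℂ →ₐ[ℂ] P2) ∘ X = z := by
    funext m; simp
  have eF : aeval z D.F = 0 := by rw [Dat.F, map_cubic, hX, h0]
  rw [dd_mul, dd_X, aeval_X, eF, dd_sum] at h1
  simp only [dd_mul, map_Q, map_C, hX] at h1
  linear_combination h1

/-- The point `s` of the fourfold over the point `(1, T₁, T₂)` (or in the base locus). -/
theorem indep_aux (hs : Smooth D.F) (hcub : D.cubic s = 0) (hw : s 4 ≠ 0)
    (hq1 : D.Q s 1 = X 0 * D.Q s 0) (hq2 : D.Q s 2 = X 1 * D.Q s 0)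
    (hC : ∑ i, tv (X : Fin 2 → P2) i * D.C s i = 0)
    (hH : ∀ i, D.H (X : Fin 2 → P2) i (v5 s) = 0) (α β : P2)
    (hab : ∀ v : Fin 4 → P2, α * D.f X (v5 s) 0 v + β * D.f X (v5 s) 1 v = 0) :
    β = 0 ∧ α * D.Q s 0 = 0 ∧
      ∀ u : Fin 6 → P2, α * (X 0 * dd s u (D.Q X 2) - X 1 * dd s u (D.Q X 1)) = 0 := by
  -- (a)
  have ha : ∀ u : Fin 5 → P2, α * polar (D.H1 X) (v5 s) u + β * polar (D.H2 X) (v5 s) u = 0 := by
    intro u
    set v : Fin 4 → P2 := ![s 4 * u 0 - u 4 * s 0, s 4 * u 1 - u 4 * s 1, s 4 * u 2 - u 4 * s 2,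
      s 4 * u 3 - u 4 * s 3] with hv
    have e : s 4 • u = emb v + u 4 • v5 s := by
      funext j
      fin_cases j <;> simp [emb_apply, hv, v5] <;> ring
    have h1 : ∀ i, s 4 * polar (D.H X i) (v5 s) u = D.f X (v5 s) i v := by
      intro i
      have h2 : polar (D.H X i) (v5 s) (s 4 • u) = D.f X (v5 s) i v := by
        rw [e, polar_add_right, polar_smul_right, polar_self, hH i, Dat.f]
        simp
      rw [← h2, polar_smul_right, smul_eq_mul]
    have h3 : s 4 * (α * polar (D.H1 X) (v5 s) u + β * polar (D.H2 X) (v5 s) u) = 0 := by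
      have := hab v
      rw [← h1 0, ← h1 1] at this
      change α * (s 4 * polar (D.H1 X) (v5 s) u) + β * (s 4 * polar (D.H2 X) (v5 s) u) = 0 at this
      linear_combination this
    exact (mul_eq_zero.1 h3).resolve_left hw
  -- (b)
  have hb : ∀ u : Fin 6 → P2, α * (X 0 * dd s u (D.Q X 2) - X 1 * dd s u (D.Q X 1)) +
      β * (X 0 * (dd s u (D.C X 0) + X 0 * dd s u (D.C X 1) + X 1 * dd s u (D.C X 2)) -
        D.kap X * (X 0 * dd s u (D.Q X 0) - dd s u (D.Q X 1))) = 0 := by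
    intro u
    have h1 := ha (v5 u)
    rw [polar_H1, polar_H2] at h1
    simp only [Fin.sum_univ_three, tv] at h1
    simp only [cons_val_zero, cons_val_one, cons_val] at h1
    linear_combination h1
  have hX : (aeval s : MvPolynomial (Fin 6) ℂ →ₐ[ℂ] P2) ∘ X = s := by
    funext m; simp
  -- (c)
  have hdQ : ∀ (k : Fin 2) (i : Fin 3), dd s (fun m => pderiv k (s m)) (D.Q X i) =
      pderiv k (D.Q s i) := by
    intro k i
    rw [dd_der, map_Q, hX]
  have hdC : ∀ (k : Fin 2) (i : Fin 3), dd s (fun m => pderiv k (s m)) (D.C X i) =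
      pderiv k (D.C s i) := by
    intro k i
    rw [dd_der, map_C, hX]
  have hC' : D.C s 0 + X 0 * D.C s 1 + X 1 * D.C s 2 = 0 := by
    simpa [Fin.sum_univ_three, tv] using hC
  have c0 : β * X 0 * D.C s 1 = D.Q s 0 * (β * D.kap X - α * X 1) := by
    have h1 := hb (fun m => pderiv 0 (s m))
    simp only [hdQ, hdC, hq1, hq2] at h1
    have h2 := congrArg (pderiv (0 : Fin 2)) hC'
    simp only [map_add, Derivation.leibniz, smul_eq_mul, pderiv_X_self, map_zero,
      pderiv_X_of_ne (show (1 : Fin 2) ≠ 0 by decide)] at h1 h2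
    linear_combination β * X 0 * h2 - h1
  have c1 : β * X 0 * D.C s 2 = D.Q s 0 * (α * X 0) := by
    have h1 := hb (fun m => pderiv 1 (s m))
    simp only [hdQ, hdC, hq1, hq2] at h1
    have h2 := congrArg (pderiv (1 : Fin 2)) hC'
    simp only [map_add, Derivation.leibniz, smul_eq_mul, pderiv_X_self, map_zero,
      pderiv_X_of_ne (show (0 : Fin 2) ≠ 1 by decide)] at h1 h2
    linear_combination β * X 0 * h2 - h1
  -- (d), (e)
  have hdF : ∀ u : Fin 6 → P2, β * (X 0 * s 4 * dd s u D.F) = 0 := by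
    intro u
    have h1 := w_mul_dF D s u hcub
    simp only [Fin.sum_univ_three, hq1, hq2] at h1
    have h2 := hb u
    linear_combination β * X 0 * h1 + D.Q s 0 * h2 + dd s u (D.Q X 1) * c0 +
      dd s u (D.Q X 2) * c1 + dd s u (D.Q X 0) * (β * X 0 * hC' - X 0 * c0 - X 1 * c1)
  have hs0 : s ≠ 0 := fun h => hw (by rw [h]; rfl)
  obtain ⟨m, hm⟩ := smooth_dom hs hs0
  have hβ : β = 0 := by
    have h1 := hdF (Pi.single m 1)
    have h2 : dd s (Pi.single m 1) D.F = aeval s (pderiv m D.F) := by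
      rw [dd, Finset.sum_eq_single m]
      · simp
      · intro j _ hj
        simp [hj]
      · intro h
        exact absurd (Finset.mem_univ m) h
    rw [h2] at h1
    exact (mul_eq_zero.1 h1).resolve_right (mul_ne_zero (mul_ne_zero (X_ne_zero 0) hw) hm)
  subst hβ
  refine ⟨rfl, ?_, ?_⟩
  · have h3 : X 0 * (α * D.Q s 0) = 0 := by linear_combination -c1
    exact (mul_eq_zero.1 h3).resolve_left (X_ne_zero 0)
  · intro u
    have := hb u
    linear_combination this

/-- piece `SD-3`: the linear forms `f 0`, `f 1` on `w = 0` are linearly independent. -/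
theorem Dat.Sec.indep (hs : Smooth D.F) (h : D.Sec s) (α β : P2)
    (hab : ∀ v : Fin 4 → P2, α * D.f X (v5 s) 0 v + β * D.f X (v5 s) 1 v = 0) :
    α = 0 ∧ β = 0 := by
  obtain ⟨h1, h2, -⟩ := indep_aux hs h.cub h.w0 h.q1 h.q2 h.C0 h.H α β hab
  exact ⟨(mul_eq_zero.1 h2).resolve_right h.q0, h1⟩

end Pool.Agent.Helper69.SD
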