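import Pool.Agent.Helper69.SD.Lam
import Pool.Agent.Helper69.SD.Ind
import Pool.Agent.Helper69.SD.Sq
import Pool.Agent.Helper64.C18.RR

/-! # SD: the theorem (piece SD-9) -/

set_option autoImplicit false
set_option linter.unusedVariables false
set_option linter.unusedSectionVars false

namespace Pool.Agent.Helper69.SD

open MvPolynomial Module Matrix QuadraticMap Pool.Agent.Helper16

variable {D : Dat} {F : MvPolynomial (Fin 6) ℂ}

/-- the point with coordinates `p` in the basis `w` -/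
noncomputable def fpt {B : Type} [CommRing B] [Algebra ℂ B] (w : Basis (Fin 6) ℂ (Fin 6 → ℂ))
    (p : Fin 6 → B) : Fin 6 → B := fun m => ∑ i, p i * algebraMap ℂ B (w i m)

private theorem fin_pt (w : Basis (Fin 6) ℂ (Fin 6 → ℂ)) (p : Fin 6 → ℂ) :
    fpt w p = ∑ i, p i • w i := by
  funext m
  simp only [fpt, Finset.sum_apply, Pi.smul_apply, smul_eq_mul, Algebra.algebraMap_self,
    RingHom.id_apply]

private theorem fin_aeval {B : Type} [CommRing B] [Algebra ℂ B]
    (w : Basis (Fin 6) ℂ (Fin 6 → ℂ)) (p : Fin 6 → B) :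
    aeval p (aeval (fpt w (X : Fin 6 → MvPolynomial (Fin 6) ℂ)) F) = aeval (fpt w p) F := by
  rw [← AlgHom.comp_apply, comp_aeval]
  congr 2
  funext m
  simp only [fpt, map_sum, map_mul, aeval_X]
  refine Finset.sum_congr rfl fun i _ => ?_
  rw [AlgHom.commutes]

private theorem fin_X (w : Basis (Fin 6) ℂ (Fin 6 → ℂ))
    (hw : ∀ p : Fin 6 → ℂ, eval (∑ i, p i • w i) F = D.cubic p) :
    aeval (fpt w (X : Fin 6 → MvPolynomial (Fin 6) ℂ)) F = D.F := by
  apply MvPolynomial.funext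
  intro p
  have h1 := fin_aeval (F := F) w p
  rw [aeval_eq_eval, aeval_eq_eval] at h1
  rw [h1, fin_pt, hw, Dat.F]
  have h2 := map_cubic (aeval p : MvPolynomial (Fin 6) ℂ →ₐ[ℂ] ℂ) D X
  rw [aeval_eq_eval] at h2
  have h3 : ((eval p : MvPolynomial (Fin 6) ℂ →+* ℂ) ∘ X) = p := by
    funext i
    simp
  have h4 : (eval p : MvPolynomial (Fin 6) ℂ →+* ℂ) (D.cubic X) = D.cubic ((aeval p : MvPolynomial (Fin 6) ℂ →ₐ[ℂ] ℂ) ∘ X) := h2
  rw [h4]
  congr 1
  funext i
  simp

/-- the equation in every extension -/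
theorem fin_tr {B : Type} [CommRing B] [Algebra ℂ B] (w : Basis (Fin 6) ℂ (Fin 6 → ℂ))
    (hw : ∀ p : Fin 6 → ℂ, eval (∑ i, p i • w i) F = D.cubic p) (p : Fin 6 → B) :
    aeval (fpt w p) F = D.cubic p := by
  rw [← fin_aeval, fin_X w hw, Dat.F, map_cubic]
  congr 1
  funext i
  simp

private theorem fin_chain {n : ℕ} (g : Fin 6 → MvPolynomial (Fin n) ℂ) (j : Fin n)
    (G : MvPolynomial (Fin 6) ℂ) :
    pderiv j (aeval g G) = ∑ m, pderiv j (g m) * aeval g (pderiv m G) := by
  induction G using MvPolynomial.induction_on with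
  | C a => simp
  | add p q hp hq => simp only [map_add, hp, hq, mul_add, Finset.sum_add_distrib]
  | mul_X p k hp =>
    have h1 : ∀ m, aeval g (pderiv m (p * X k)) =
        aeval g p * (if m = k then 1 else 0) + g k * aeval g (pderiv m p) := by
      intro m
      rw [Derivation.leibniz, pderiv_X]
      by_cases h : m = k
      · subst h
        simp
      · simp [h]
    simp only [h1, mul_add, Finset.sum_add_distrib, mul_ite, mul_one, mul_zero,
      Finset.sum_ite_eq', Finset.mem_univ, if_true]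
    rw [map_mul, aeval_X, Derivation.leibniz, hp, smul_eq_mul, smul_eq_mul, Finset.mul_sum]
    congr 1
    · ring
    · exact Finset.sum_congr rfl fun m _ => by ring

/-- piece `SD-9` (a): smoothness in the coordinates `p` -/
theorem smooth_F (hF : F.IsHomogeneous 3) (hs : Smooth F) (w : Basis (Fin 6) ℂ (Fin 6 → ℂ))
    (hw : ∀ p : Fin 6 → ℂ, eval (∑ i, p i • w i) F = D.cubic p) : Smooth D.F := by
  intro x hx
  by_contra hcon
  push Not at hcon
  set y : Fin 6 → ℂ := ∑ i, x i • w i with hy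
  have hy0 : y ≠ 0 := by
    intro h
    apply hx
    have h1 := w.linearIndependent
    rw [Fintype.linearIndependent_iff] at h1
    exact funext (h1 x h)
  obtain ⟨m0, hm0⟩ := hs y hy0
  apply hm0
  -- the functional
  obtain ⟨f, hf⟩ : ∃ f : (Fin 6 → ℂ) →ₗ[ℂ] ℂ,
      f = ∑ m, (eval y (pderiv m F)) • LinearMap.proj m := ⟨_, rfl⟩
  have hfa : ∀ v, f v = ∑ m, v m * eval y (pderiv m F) := by
    intro v
    rw [hf, LinearMap.sum_apply]
    refine Finset.sum_congr rfl fun m _ => ?_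
    rw [LinearMap.smul_apply, LinearMap.proj_apply, smul_eq_mul, mul_comm]
  have hf0 : f = 0 := by
    apply w.ext
    intro j
    rw [hfa, LinearMap.zero_apply, ← hcon j, ← fin_X w hw, fin_chain, map_sum]
    refine Finset.sum_congr rfl fun m _ => ?_
    rw [map_mul]
    congr 1
    · have h1 : pderiv j (fpt w (X : Fin 6 → MvPolynomial (Fin 6) ℂ) m) = C (w j m) := by
        simp only [fpt, map_sum, Derivation.leibniz, smul_eq_mul, pderiv_X,
          MvPolynomial.algebraMap_eq, pderiv_C, mul_zero, zero_add]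
        rw [Finset.sum_eq_single j]
        · simp
        · intro i _ hi
          simp [Pi.single_eq_of_ne hi]
        · intro h
          exact absurd (Finset.mem_univ j) h
      rw [h1, eval_C]
    · have h2 := fin_aeval (F := pderiv m F) w x
      rw [aeval_eq_eval, aeval_eq_eval, fin_pt] at h2
      exact h2.symm
  have h3 := hfa (Pi.single m0 1)
  rw [hf0, LinearMap.zero_apply] at h3
  rw [Finset.sum_eq_single m0] at h3
  · rw [Pi.single_eq_same, one_mul] at h3
    exact h3.symm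
  · intro m _ hm
    rw [Pi.single_eq_of_ne hm, zero_mul]
  · intro h
    exact absurd (Finset.mem_univ m0) h

theorem inc_inj : Function.Injective inc := by
  have h1 : inc = rename (R := ℂ) (![0, 1] : Fin 2 → Fin 4) := by
    rw [inc, rename_eq_aeval]
    congr 1
    funext k
    fin_cases k <;> rfl
  rw [h1]
  apply rename_injective
  intro a b h
  fin_cases a <;> fin_cases b <;> simp_all

theorem H_s4 {s : Fin 6 → P2} (h : D.Sec s) (i : Fin 2) : D.H t4 i (s4 s) = 0 := by
  have h1 := map_H inc D (X : Fin 2 → P2) i (v5 s)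
  rw [h.H i, map_zero] at h1
  have h2 : (inc ∘ (X : Fin 2 → P2)) = t4 := by
    funext k
    rw [Function.comp_apply, inc, aeval_X]
  rw [h2] at h1
  exact h1.symm

theorem Q_smul {B : Type} [CommRing B] [Algebra ℂ B] (c : B) (p : Fin 6 → B) (i : Fin 3) :
    D.Q (c • p) i = c ^ 2 * D.Q p i := by
  have h1 : v5 (c • p) = c • v5 p := rfl
  simp only [Q_apply, h1, QuadraticMap.map_smul, Pi.smul_apply, smul_eq_mul]
  split_ifs <;> ring

private theorem fin_inv2 (w : Basis (Fin 6) ℂ (Fin 6 → ℂ)) (b b' : Fin 6) :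
    ∑ m, w b' m * w.repr (Pi.single m 1) b = if b' = b then 1 else 0 := by
  have h1 : w b' = ∑ m, w b' m • (Pi.single m 1 : Fin 6 → ℂ) := by
    funext m'
    rw [Finset.sum_apply, Finset.sum_eq_single m']
    · rw [Pi.smul_apply, Pi.single_eq_same, smul_eq_mul, mul_one]
    · intro m _ hm
      rw [Pi.smul_apply, Pi.single_eq_of_ne (Ne.symm hm), smul_zero]
    · intro h
      exact absurd (Finset.mem_univ m') h
  have h2 : w.repr (w b') b = ∑ m, w b' m * w.repr (Pi.single m 1) b := by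
    conv_lhs => rw [h1]
    rw [map_sum, Finsupp.finsetSum_apply]
    refine Finset.sum_congr rfl fun m _ => ?_
    rw [map_smul, Finsupp.smul_apply, smul_eq_mul]
  rw [← h2, w.repr_self, Finsupp.single_apply]

/-- the coordinates `p` from the point -/
theorem fpt_inv {B : Type} [CommRing B] [Algebra ℂ B] (w : Basis (Fin 6) ℂ (Fin 6 → ℂ))
    (p : Fin 6 → B) (i : Fin 6) :
    p i = ∑ m, fpt w p m * algebraMap ℂ B (w.repr (Pi.single m 1) i) := by
  have h2 : ∑ m, fpt w p m * algebraMap ℂ B (w.repr (Pi.single m 1) i) =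
      ∑ b', p b' * algebraMap ℂ B (∑ m, w b' m * w.repr (Pi.single m 1) i) := by
    simp only [fpt, Finset.sum_mul, map_sum, map_mul, Finset.mul_sum]
    rw [Finset.sum_comm]
    refine Finset.sum_congr rfl fun b' _ => Finset.sum_congr rfl fun m _ => ?_
    ring
  rw [h2, Finset.sum_eq_single i]
  · rw [fin_inv2, if_pos rfl, map_one, mul_one]
  · intro b' _ hb
    rw [fin_inv2, if_neg hb, map_zero, mul_zero]
  · intro h'
    exact absurd (Finset.mem_univ i) h'

private theorem top_r :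
    IntermediateField.adjoin ℂ (Set.range fun i : Fin 4 => algebraMap R4 L4 (X i)) = ⊤ := by
  rw [eq_top_iff]
  intro x _
  have hmem : ∀ p : R4, algebraMap R4 L4 p ∈
      IntermediateField.adjoin ℂ (Set.range fun i : Fin 4 => algebraMap R4 L4 (X i)) := by
    intro p
    induction p using MvPolynomial.induction_on with
    | C a =>
      have h1 : algebraMap R4 L4 (C a) = algebraMap ℂ L4 a := by
        rw [← MvPolynomial.algebraMap_eq, ← IsScalarTower.algebraMap_apply]
      rw [h1]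
      exact IntermediateField.algebraMap_mem _ a
    | add p q hp hq => rw [map_add]; exact add_mem hp hq
    | mul_X p k hp =>
      rw [map_mul]
      exact mul_mem hp (IntermediateField.subset_adjoin _ _ ⟨k, rfl⟩)
  obtain ⟨a, b, _, rfl⟩ := IsFractionRing.div_surjective (A := R4) x
  exact div_mem (hmem a) (hmem b)

private theorem ind_r : AlgebraicIndependent ℂ fun i : Fin 4 => algebraMap R4 L4 (X i) := by
  have h1 := (MvPolynomial.algebraicIndependent_X (Fin 4) ℂ).map'
    (f := IsScalarTower.toAlgHom ℂ R4 L4) (FaithfulSMul.algebraMap_injective R4 L4)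
  exact h1

/-- piece `SD-9` (b) (helper15): a good point gives rationality.  `Ξ = lift tL ξ` (`Q_lift`, `cubic_lift`), the point
`z = ∑ Ξ_m w_m` in `L4⁶`, `rational_of_gen` (`Helper64/C18/RR.lean`) with `A = L4`, `r i = X i`; for `L ≤ ⊤` containing `t z_m`, all `t Ξ_m` are in `L`
(inverse matrix of `w`), `Q_i(Ξ)/Q_0(Ξ) = T_i` (`Q_0(Ξ) = T₁ w² B₁(ξ) ≠ 0` by `GoodPt.B1_ne`), then `GoodPt.top` with `τ = t T₁ w`. -/
theorem main_of_good (hF : F.IsHomogeneous 3) (hs : Smooth F) (w : Basis (Fin 6) ℂ (Fin 6 → ℂ))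
    (hw : ∀ p : Fin 6 → ℂ, eval (∑ i, p i • w i) F = D.cubic p)
    (hn : ∃ c : Fin 2 → ℂ, D.dt c ≠ 0) {ξ : Fin 5 → L4} (hξ : GoodPt D ξ) :
    (Ideal.span {dh F}).IsPrime ∧
      Nonempty (FractionRing (MvPolynomial (Fin 5) ℂ ⧸ Ideal.span {dh F}) ≃ₐ[ℂ]
        FractionRing (MvPolynomial (Fin 4) ℂ)) := by
  have hsD : Smooth D.F := smooth_F hF hs w hw
  have hB := hξ.B1_ne hsD hn
  have hH1 : D.H1 tL ξ = 0 := hξ.H 0
  have hH2 : D.H2 tL ξ = 0 := hξ.H 1
  have ht0 := tL0_ne
  have hv4 := hξ.w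
  obtain ⟨e0, e1, e2⟩ := Q_lift D tL ξ hH1
  have hc := cubic_lift D tL ξ ht0 hv4 hH1 hH2
  obtain ⟨Ξ, hΞ⟩ : ∃ Ξ : Fin 6 → L4, Ξ = D.lift tL ξ := ⟨_, rfl⟩
  rw [← hΞ] at e0 e1 e2 hc
  have hQφ0 : D.Q Ξ 0 ≠ 0 := by
    rw [e0]
    exact mul_ne_zero (mul_ne_zero ht0 (pow_ne_zero 2 hv4)) hB
  refine Pool.Agent.Helper16.C18.H.rational_of_gen (A := L4) hF hs ind_r (z := fpt w Ξ) ?_ ?_ ?_ ?_
  · intro h
    apply hQφ0
    have h2 : Ξ = 0 := by
      funext i
      rw [fpt_inv w Ξ i, h]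
      simp
    rw [h2]
    have h3 := Q_smul (D := D) (0 : L4) (0 : Fin 6 → L4) 0
    rw [smul_zero] at h3
    rw [h3]
    ring
  · rw [fin_tr w hw, hc]
  · refine ⟨1, one_ne_zero, fun m => ?_⟩
    rw [top_r]
    trivial
  · intro L _ hL
    obtain ⟨t, ht, htz⟩ := hL
    have hΞL : ∀ i, t * Ξ i ∈ L := by
      intro i
      have h2 : t * Ξ i = ∑ m, (t * fpt w Ξ m) * algebraMap ℂ L4 (w.repr (Pi.single m 1) i) := by
        have h3 := fpt_inv w Ξ i
        conv_lhs => rw [h3]
        rw [Finset.mul_sum]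
        exact Finset.sum_congr rfl fun m _ => by ring
      rw [h2]
      exact sum_mem fun m _ => mul_mem (htz m) (IntermediateField.algebraMap_mem _ _)
    have hQL : ∀ i, t ^ 2 * D.Q Ξ i ∈ L := by
      intro i
      let p : Fin 6 → L := fun j => ⟨t * Ξ j, hΞL j⟩
      have h2 := map_Q L.val D p i
      have h3 : (L.val ∘ p) = t • Ξ := rfl
      rw [h3, Q_smul] at h2
      rw [← h2]
      exact (D.Q p i).2
    have hne : t ^ 2 * D.Q Ξ 0 ≠ 0 := mul_ne_zero (pow_ne_zero 2 ht) hQφ0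
    have hT : ∀ i, tL i ∈ L := by
      intro i
      have h2 : ∀ j : Fin 3, D.Q Ξ j = tL i * D.Q Ξ 0 → tL i ∈ L := by
        intro j hj
        have h3 : tL i = (t ^ 2 * D.Q Ξ j) / (t ^ 2 * D.Q Ξ 0) := by
          rw [eq_div_iff hne, hj]
          ring
        rw [h3]
        exact div_mem (hQL j) (hQL 0)
      fin_cases i
      · exact h2 1 e1
      · exact h2 2 e2
    have hτ : t * (tL 0 * ξ 4) ≠ 0 := mul_ne_zero ht (mul_ne_zero ht0 hv4)
    have h2 := hξ.top L hT _ hτ ?_
    · rw [h2]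
      exact le_top
    · intro j
      have h3 : ∀ j : Fin 5, Ξ j.castSucc = tL 0 * ξ 4 * ξ j := by
        rw [hΞ]
        intro j
        fin_cases j <;> rfl
      have h4 : t * (tL 0 * ξ 4) * ξ j = t * Ξ j.castSucc := by
        rw [h3]
        ring
      rw [h4]
      exact hΞL _

/-- the theorem with a section -/
theorem main (hF : F.IsHomogeneous 3) (hs : Smooth F) (w : Basis (Fin 6) ℂ (Fin 6 → ℂ))
    (hw : ∀ p : Fin 6 → ℂ, eval (∑ i, p i • w i) F = D.cubic p)
    (ha : D.a ≠ 0) (hb : D.b ≠ 0) (hn : ∃ c : Fin 2 → ℂ, D.dt c ≠ 0) (hsec : D.RationalSection) :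
    (Ideal.span {dh F}).IsPrime ∧
      Nonempty (FractionRing (MvPolynomial (Fin 5) ℂ ⧸ Ideal.span {dh F}) ≃ₐ[ℂ]
        FractionRing (MvPolynomial (Fin 4) ℂ)) := by
  obtain ⟨s, h1, h2, h3, h4, h5⟩ := hsec
  have sec : D.Sec s := ⟨h1, h2, h3, h4, h5⟩
  have hsD := smooth_F hF hs w hw
  have hsq := del_nonsq hsD ha hb hn
  have h0 : D.k0 t4 (s4 s) D.vg ≠ 0 := k0_ne hsq hn (Dat.Sec.indep hsD sec)
  exact main_of_good hF hs w hw hn
    (good_pt5 ha hn sec.H sec.w0 h0 (sig_ne hsq hn h0))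

end Pool.Agent.Helper69.SD
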