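import Pool.Agent.Helper69.SD.Setup
import Pool.Agent.Helper69.SD.Nat

/-! # SD: `k0` and `sig` are not zero (piece SD-5) -/

set_option autoImplicit false
set_option linter.unusedVariables false
set_option linter.unusedSectionVars false

namespace Pool.Agent.Helper69.SD

open MvPolynomial Module Matrix QuadraticMap Pool.Agent.Helper16

variable {D : Dat} {s : Fin 6 → P2}

/-- `T₁`, `T₂` in `ℂ[T₁, T₂, S, P]` -/
noncomputable def t4 : Fin 2 → R4 := ![X 0, X 1]

/-- the inclusion of `ℂ[T₁, T₂]` -/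
noncomputable def inc : P2 →ₐ[ℂ] R4 := aeval t4

/-- the generic direction -/
noncomputable def Dat.vg (D : Dat) : Fin 4 → R4 := D.vh t4 (X 2) (X 3)

/-- the section over `R4` -/
noncomputable def s4 (s : Fin 6 → P2) : Fin 5 → R4 := inc ∘ v5 s

/-! ### over a field -/

section Field

variable {K : Type} [Field K] [Algebra ℂ K]

/-- a map with a square which is not a square: `k0` is not identically zero -/
theorem exists_k0 {t : Fin 2 → K} {s : Fin 5 → K} (hsq : ∀ r : K, r ^ 2 ≠ D.del t)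
    (hi : ∀ α β : K, (∀ v : Fin 4 → K, α * D.f t s 0 v + β * D.f t s 1 v = 0) → α = 0 ∧ β = 0) :
    ∃ v, D.k0 t s v ≠ 0 := by
  by_contra hcon
  push Not at hcon
  -- a vector with `f 0 ≠ 0`
  obtain ⟨v1, hv1⟩ : ∃ v1, D.f t s 0 v1 ≠ 0 := by
    by_contra h
    push Not at h
    have := (hi 1 0 (fun v => by rw [h v]; ring)).1
    exact one_ne_zero this
  -- a vector with `f 0 = 0`, `f 1 ≠ 0`
  obtain ⟨v0, hv0, hv0'⟩ : ∃ v0, D.f t s 0 v0 = 0 ∧ D.f t s 1 v0 ≠ 0 := by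
    by_contra h
    push Not at h
    have h1 := hi (D.f t s 1 v1) (-D.f t s 0 v1) (fun v => by
      have h2 := h (D.f t s 0 v1 • v + (-D.f t s 0 v) • v1) (by
        rw [f_add, f_smul, f_smul]; ring)
      rw [f_add, f_smul, f_smul] at h2
      linear_combination -h2)
    exact hv1 (neg_eq_zero.1 h1.2)
  have hker : ∀ v, D.f t s 0 v = 0 → D.f t s 0 (D.Th t v) = 0 := by
    intro v hv
    have h1 := hcon v
    have h2 := hcon v0
    have h3 := hcon (v + v0)
    unfold Dat.k0 at h1 h2 h3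
    rw [map_add] at h3
    simp only [f_add] at h3
    rw [hv] at h1 h3
    rw [hv0] at h2 h3
    have h4 : D.f t s 0 (D.Th t v0) = 0 := by
      have h5 : D.f t s 0 (D.Th t v0) * D.f t s 1 v0 = 0 := by linear_combination -h2
      exact (mul_eq_zero.1 h5).resolve_right hv0'
    rw [h4] at h3
    have h6 : D.f t s 0 (D.Th t v) * D.f t s 1 v = 0 := by linear_combination -h1
    have h7 : D.f t s 0 (D.Th t v) * (D.f t s 1 v + D.f t s 1 v0) = 0 := by linear_combination -h3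
    have h8 : D.f t s 0 (D.Th t v) * D.f t s 1 v0 = 0 := by linear_combination h7 - h6
    exact (mul_eq_zero.1 h8).resolve_right hv0'
  have hprop : ∀ v, D.f t s 0 v1 * D.f t s 0 (D.Th t v) = D.f t s 0 v * D.f t s 0 (D.Th t v1) := by
    intro v
    have h1 := hker (D.f t s 0 v1 • v + (-D.f t s 0 v) • v1) (by
      rw [f_add, f_smul, f_smul]; ring)
    rw [map_add, map_smul, map_smul, f_add, f_smul, f_smul] at h1
    linear_combination h1
  have h1 := hprop (D.Th t v1)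
  rw [Th_Th, f_smul] at h1
  apply hsq (D.f t s 0 (D.Th t v1) / D.f t s 0 v1)
  field_simp
  linear_combination -h1

/-- if `k0` vanishes at all `vh S P`, it is identically zero -/
theorem k0_zero {t : Fin 2 → K} {s : Fin 5 → K} (hsq : ∀ r : K, r ^ 2 ≠ D.del t)
    (hd : D.dt t ≠ 0) (h : ∀ S P : K, D.k0 t s (D.vh t S P) = 0) (u : Fin 4 → K) :
    D.k0 t s u = 0 := by
  have _ : CharZero K := charZero_of_injective_algebraMap (algebraMap ℂ K).injective
  have hsc : ∀ (c : K) (v : Fin 4 → K), D.k0 t s (c • v) = c ^ 2 * D.k0 t s v := by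
    intro c v
    have h1 := k0_comb D t s v c 0
    rw [zero_smul, add_zero] at h1
    rw [h1]
    ring
  have hpar : ∀ u v : Fin 4 → K, D.k0 t s (u + v) + D.k0 t s (u + (-1 : K) • v) =
      2 * D.k0 t s u + 2 * D.k0 t s v := by
    intro u v
    unfold Dat.k0
    simp only [map_add, map_smul, f_add, f_smul]
    ring
  -- the hyperplane `n₁₀ y₁ + n₁₁ y₂ = 0`
  have h1 : ∀ v : Fin 4 → K, v 0 ≠ 0 → D.n t 1 0 * v 2 + D.n t 1 1 * v 3 = 0 →
      D.k0 t s v = 0 := by
    intro v hv0 hv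
    obtain ⟨P, hP2, hP3⟩ : ∃ P, v 2 = P * D.n t 1 1 ∧ v 3 = -(P * D.n t 1 0) := by
      refine ⟨(D.n t 0 0 * v 2 + D.n t 0 1 * v 3) / D.dt t, ?_, ?_⟩
      · field_simp
        unfold Dat.dt
        linear_combination -D.n t 0 1 * hv
      · field_simp
        unfold Dat.dt
        linear_combination D.n t 0 0 * hv
    have h2 : v = v 0 • D.vh t (v 1 / v 0) (P / v 0) := by
      funext i
      fin_cases i
      · simp [Dat.vh]
      · simp [Dat.vh]
        field_simp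
      · simp [Dat.vh]
        rw [hP2]
        field_simp
      · simp [Dat.vh]
        rw [hP3]
        field_simp
    rw [h2, hsc, h, mul_zero]
  have h2 : ∀ v : Fin 4 → K, D.n t 1 0 * v 2 + D.n t 1 1 * v 3 = 0 → D.k0 t s v = 0 := by
    intro v hv
    by_cases hv0 : v 0 = 0
    · have e : ∀ c : K, c ≠ 0 → D.k0 t s (v + c • ![1, 0, 0, 0]) = 0 := by
        intro c hc
        apply h1
        · simpa [hv0] using hc
        · simpa using hv
      have h3 := hpar v ![1, 0, 0, 0]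
      have h4 := e 1 one_ne_zero
      rw [one_smul] at h4
      rw [h4, e (-1) (by norm_num), h1 ![1, 0, 0, 0] (by simp) (by simp)] at h3
      have h5 : (2 : K) * D.k0 t s v = 0 := by linear_combination -h3
      exact (mul_eq_zero.1 h5).resolve_left two_ne_zero
    · exact h1 v hv0 hv
  -- the general vector
  set φ : (Fin 4 → K) → K := fun v => D.n t 1 0 * v 2 + D.n t 1 1 * v 3 with hφ
  by_cases hu : φ u = 0
  · exact h2 u hu
  · have h3 := h2 (φ (D.Th t u) • u + (-φ u) • D.Th t u) (by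
      simp only [hφ, Pi.add_apply, Pi.smul_apply, smul_eq_mul]
      ring)
    rw [k0_comb] at h3
    refine (mul_eq_zero.1 h3).resolve_left fun h4 => ?_
    apply hsq (φ (D.Th t u) / φ u)
    field_simp
    linear_combination h4

end Field

private theorem frac_aux {K : Type} [Field K] (x1 x2 x3 x4 a b : K) (h3 : x3 ≠ 0) (h4 : x4 ≠ 0) :
    x1 * x4 * a + x2 * x3 * b = x3 * x4 * (x1 / x3 * a + x2 / x4 * b) := by
  field_simp

/-- piece `SD-5` (a) -/
theorem k0_ne (hsq : ∀ m n : P2, m ^ 2 * D.del (X : Fin 2 → P2) = n ^ 2 → m = 0)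
    (hn : ∃ c : Fin 2 → ℂ, D.dt c ≠ 0)
    (hi : ∀ α β : P2, (∀ v : Fin 4 → P2, α * D.f X (v5 s) 0 v + β * D.f X (v5 s) 1 v = 0) →
      α = 0 ∧ β = 0) : D.k0 t4 (s4 s) D.vg ≠ 0 := by
  intro h0
  let K := FractionRing P2
  let ι : P2 →ₐ[ℂ] K := IsScalarTower.toAlgHom ℂ P2 K
  have hι : Function.Injective ι := IsFractionRing.injective P2 K
  have hdelK : D.del (ι ∘ (X : Fin 2 → P2)) = ι (D.del X) := (map_del ι D X).symm
  have hsqK : ∀ r : K, r ^ 2 ≠ D.del (ι ∘ (X : Fin 2 → P2)) := by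
    intro r hr
    obtain ⟨n, m, hm, rfl⟩ := IsFractionRing.div_surjective (A := P2) r
    have hm0 : m ≠ 0 := nonZeroDivisors.ne_zero hm
    have hm' : ι m ≠ 0 := fun h => hm0 (hι (by rw [h, map_zero]))
    apply hm0
    apply hsq m n
    apply hι
    rw [hdelK] at hr
    change (ι n / ι m) ^ 2 = _ at hr
    rw [map_mul, map_pow, map_pow, ← hr, div_pow, mul_div_assoc', mul_div_cancel_left₀]
    exact pow_ne_zero 2 hm'
  have hdK : D.dt (ι ∘ (X : Fin 2 → P2)) ≠ 0 := by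
    intro h
    obtain ⟨c, hc⟩ := hn
    rw [← map_dt ι D X] at h
    have h1 : D.dt (X : Fin 2 → P2) = 0 := hι (by rw [h, map_zero])
    apply hc
    have h2 := map_dt (aeval c : P2 →ₐ[ℂ] ℂ) D X
    rw [h1, map_zero] at h2
    have h3 : (aeval c : P2 →ₐ[ℂ] ℂ) ∘ X = c := by
      funext i
      simp
    rw [h3] at h2
    exact h2.symm
  have hiK : ∀ α β : K, (∀ v : Fin 4 → K, α * D.f (ι ∘ X) (ι ∘ v5 s) 0 v +
      β * D.f (ι ∘ X) (ι ∘ v5 s) 1 v = 0) → α = 0 ∧ β = 0 := by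
    intro α β h
    obtain ⟨n, m, hm, rfl⟩ := IsFractionRing.div_surjective (A := P2) α
    obtain ⟨n', m', hm', rfl⟩ := IsFractionRing.div_surjective (A := P2) β
    have hm0 : ι m ≠ 0 := fun h =>
      nonZeroDivisors.ne_zero hm (hι (by rw [h, map_zero]))
    have hm0' : ι m' ≠ 0 := fun h =>
      nonZeroDivisors.ne_zero hm' (hι (by rw [h, map_zero]))
    have h1 := hi (n * m') (n' * m) (fun v => by
      apply hι
      have h2 := h (ι ∘ v)
      rw [← map_f, ← map_f] at h2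
      change ι n / ι m * _ + ι n' / ι m' * _ = 0 at h2
      rw [map_zero, map_add, map_mul, map_mul, map_mul, map_mul]
      generalize ι (D.f X (v5 s) 0 v) = a at h2 ⊢
      generalize ι (D.f X (v5 s) 1 v) = b at h2 ⊢
      have h3 : ι n * ι m' * a + ι n' * ι m * b =
          ι m * ι m' * (ι n / ι m * a + ι n' / ι m' * b) :=
        frac_aux _ _ _ _ _ _ hm0 hm0'
      rw [h3, h2, mul_zero])
    have hm1 : m ≠ 0 := nonZeroDivisors.ne_zero hm
    have hm1' : m' ≠ 0 := nonZeroDivisors.ne_zero hm'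
    have h3 := (mul_eq_zero.1 h1.1).resolve_right hm1'
    have h4 := (mul_eq_zero.1 h1.2).resolve_right hm1
    rw [h3, h4, map_zero, zero_div, zero_div]
    exact ⟨rfl, rfl⟩
  obtain ⟨v, hv⟩ := exists_k0 hsqK hiK
  refine hv (k0_zero hsqK hdK (fun S P => ?_) v)
  let φ : R4 →ₐ[ℂ] K := aeval ![ι (X 0), ι (X 1), S, P]
  have e1 : φ ∘ t4 = ι ∘ (X : Fin 2 → P2) := by
    funext i
    fin_cases i <;> simp [φ, t4]
  have e2 : φ ∘ (s4 s) = ι ∘ v5 s := by
    have h1 : φ.comp inc = ι := by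
      apply MvPolynomial.algHom_ext
      intro i
      rw [AlgHom.comp_apply, inc, aeval_X]
      exact congrFun e1 i
    funext i
    change φ (inc (v5 s i)) = ι (v5 s i)
    rw [← AlgHom.comp_apply, h1]
  have e3 : φ ∘ D.vg = D.vh (ι ∘ X) S P := by
    rw [Dat.vg, map_vh, e1]
    congr 1 <;> simp [φ]
  have h1 := map_k0 φ D t4 (s4 s) D.vg
  rw [h0, map_zero, e1, e2, e3] at h1
  exact h1.symm

theorem dt4_ne (hn : ∃ c : Fin 2 → ℂ, D.dt c ≠ 0) : D.dt t4 ≠ 0 := by
  intro h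
  obtain ⟨c, hc⟩ := hn
  apply hc
  have h2 := map_dt (aeval ![c 0, c 1, 0, 0] : R4 →ₐ[ℂ] ℂ) D t4
  rw [h, map_zero] at h2
  have h3 : (aeval ![c 0, c 1, 0, 0] : R4 →ₐ[ℂ] ℂ) ∘ t4 = c := by
    funext i
    fin_cases i <;> simp [t4]
  rw [h3] at h2
  exact h2.symm

/-- piece `SD-5` (b) -/
theorem sig_ne (hsq : ∀ m n : P2, m ^ 2 * D.del (X : Fin 2 → P2) = n ^ 2 → m = 0)
    (hn : ∃ c : Fin 2 → ℂ, D.dt c ≠ 0) (h0 : D.k0 t4 (s4 s) D.vg ≠ 0) :
    D.sig t4 (s4 s) D.vg ≠ 0 := by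
  intro hsig
  have hk2 : D.k2 t4 (s4 s) D.vg ≠ 0 := by
    intro hk
    rw [Dat.sig, hk] at hsig
    have hk1 : D.k1 t4 (s4 s) D.vg = 0 := by
      have : D.k1 t4 (s4 s) D.vg ^ 2 = 0 := by
        rw [zero_pow two_ne_zero, mul_zero, sub_zero] at hsig
        exact hsig
      exact eq_zero_of_pow_eq_zero this
    have h8 : D.k0 t4 (s4 s) D.vg * D.h t4 0 D.vg + D.k1 t4 (s4 s) D.vg * D.f t4 (s4 s) 0 D.vg +
        D.k2 t4 (s4 s) D.vg * D.f t4 (s4 s) 0 (D.Th t4 D.vg) = 0 := by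
      simp only [Dat.k0, Dat.k1, Dat.k2]
      generalize D.f t4 (s4 s) 0 (D.Th t4 D.vg) = x1
      generalize D.f t4 (s4 s) 1 (D.Th t4 D.vg) = x2
      generalize D.f t4 (s4 s) 0 D.vg = x3
      generalize D.f t4 (s4 s) 1 D.vg = x4
      generalize D.h t4 0 D.vg = x5
      generalize D.h t4 1 D.vg = x6
      ring
    rw [hk, hk1, zero_mul, zero_mul, add_zero, add_zero] at h8
    have h9 := (mul_eq_zero.1 h8).resolve_left h0
    have h10 : D.h t4 0 D.vg = X 3 * D.dt t4 := H1_vh D t4 (X 2) (X 3)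
    rw [h10] at h9
    rcases mul_eq_zero.1 h9 with h11 | h11
    · exact X_ne_zero _ h11
    · exact dt4_ne hn h11
  obtain ⟨c, hc⟩ : ∃ c : Fin 4 → ℂ, eval c (D.k2 t4 (s4 s) D.vg) ≠ 0 := by
    by_contra hcon
    push Not at hcon
    exact hk2 (MvPolynomial.funext fun c => by rw [hcon c, map_zero])
  let ψ : R4 →ₐ[ℂ] P2 := aeval ![X 0, X 1, C (c 2), C (c 3)]
  have e1 : ψ ∘ t4 = (X : Fin 2 → P2) := by
    funext i
    fin_cases i <;> simp [ψ, t4]
  have hsig' : D.k2 t4 (s4 s) D.vg ^ 2 * D.del t4 = D.k1 t4 (s4 s) D.vg ^ 2 := by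
    rw [Dat.sig, sub_eq_zero] at hsig
    rw [hsig, mul_comm]
  have h1 : ψ (D.k2 t4 (s4 s) D.vg) = 0 := by
    apply hsq _ (ψ (D.k1 t4 (s4 s) D.vg))
    rw [← e1, ← map_del, ← map_pow, ← map_pow, ← map_mul, hsig']
  apply hc
  have h2 : ((aeval ![c 0, c 1] : P2 →ₐ[ℂ] ℂ).comp ψ) = aeval c := by
    apply MvPolynomial.algHom_ext
    intro i
    rw [AlgHom.comp_apply, aeval_X, aeval_X]
    fin_cases i <;> simp
  have h3 := DFunLike.congr_fun h2 (D.k2 t4 (s4 s) D.vg)
  rw [AlgHom.comp_apply, h1, map_zero, aeval_eq_eval] at h3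
  exact h3.symm

end Pool.Agent.Helper69.SD
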