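import Pool.Agent.Helper69.SD.Defs

/-! # SD: algebra over a ring -/

set_option autoImplicit false
set_option linter.unusedVariables false
set_option linter.unusedSectionVars false

namespace Pool.Agent.Helper69.SD

open MvPolynomial Module Matrix QuadraticMap

/-- complex constants in the ring `R` -/
def cc (R : Type) [CommRing R] [Algebra ℂ R] (u : ℂ) : R := algebraMap ℂ R u

section

variable (D : Dat) (R : Type) [CommRing R] [Algebra ℂ R]

/-- `(xᵀ A i)_j` as a linear form in `(x₁, x₂, y₁, y₂, w)` -/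
noncomputable def Dat.cx (i j : Fin 3) : (Fin 5 → R) →ₗ[R] R :=
  cc R (D.A i 0 j) • LinearMap.proj 0 + cc R (D.A i 1 j) • LinearMap.proj 1 +
    cc R (D.A i 2 j) • LinearMap.proj 4

/-- `(A i y)_j` -/
noncomputable def Dat.cy (i j : Fin 3) : (Fin 5 → R) →ₗ[R] R :=
  cc R (D.A i j 0) • LinearMap.proj 2 + cc R (D.A i j 1) • LinearMap.proj 3 +
    cc R (D.A i j 2) • LinearMap.proj 4

/-- `xᵀ A i y` -/
noncomputable def Dat.Bq (i : Fin 3) : QuadraticForm R (Fin 5 → R) :=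
  linMulLin (LinearMap.proj 2) (D.cx R i 0) + linMulLin (LinearMap.proj 3) (D.cx R i 1) +
    linMulLin (LinearMap.proj 4) (D.cx R i 2)

/-- the `2 x 2` minors of the first two columns of the matrix with rows `xᵀ A i` -/
noncomputable def Dat.qx (i : Fin 3) : QuadraticForm R (Fin 5 → R) :=
  linMulLin (D.cx R (i + 1) 0) (D.cx R (i + 2) 1) - linMulLin (D.cx R (i + 1) 1) (D.cx R (i + 2) 0)

noncomputable def Dat.qy (i : Fin 3) : QuadraticForm R (Fin 5 → R) :=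
  linMulLin (D.cy R (i + 1) 0) (D.cy R (i + 2) 1) - linMulLin (D.cy R (i + 1) 1) (D.cy R (i + 2) 0)

/-- the part of `l i` without `z` -/
noncomputable def Dat.l5 (i : Fin 3) : (Fin 5 → R) →ₗ[R] R :=
  ∑ j : Fin 5, cc R (D.l i j.castSucc) • LinearMap.proj j

end

variable {R : Type} [CommRing R] [Algebra ℂ R]

/-- the first five coordinates -/
def v5 (p : Fin 6 → R) : Fin 5 → R := fun j => p j.castSucc

/-- the three quadrics `C i` with `w F = ∑ Q i C i` -/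
noncomputable def Dat.C (D : Dat) (p : Fin 6 → R) (i : Fin 3) : R :=
  cc R D.a * D.qx R i (v5 p) + cc R D.b * D.qy R i (v5 p) + p 4 * ∑ j, cc R (D.l i j) * p j

/-- `(1, T₁, T₂)` -/
def tv (t : Fin 2 → R) : Fin 3 → R := ![1, t 0, t 1]

/-- `κ` -/
noncomputable def Dat.kap (D : Dat) (t : Fin 2 → R) : R :=
  cc R (D.l 0 5) + t 0 * cc R (D.l 1 5) + t 1 * cc R (D.l 2 5)

/-- the `2 x 2` block of `T₁ A 2 - T₂ A 1` -/
noncomputable def Dat.n (D : Dat) (t : Fin 2 → R) (i j : Fin 3) : R :=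
  t 0 * cc R (D.A 2 i j) - t 1 * cc R (D.A 1 i j)

/-- its determinant -/
noncomputable def Dat.dt (D : Dat) (t : Fin 2 → R) : R :=
  D.n t 0 0 * D.n t 1 1 - D.n t 0 1 * D.n t 1 0

/-- `δ` -/
noncomputable def Dat.del (D : Dat) (t : Fin 2 → R) : R :=
  D.kap t ^ 2 + 4 * cc R D.a * cc R D.b * D.dt t

/-- the first quadric of the fibre -/
noncomputable def Dat.H1 (D : Dat) (t : Fin 2 → R) : QuadraticForm R (Fin 5 → R) :=
  t 0 • D.Bq R 2 - t 1 • D.Bq R 1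

/-- the second quadric of the fibre -/
noncomputable def Dat.H2 (D : Dat) (t : Fin 2 → R) : QuadraticForm R (Fin 5 → R) :=
  t 0 • (cc R D.a • (D.qx R 0 + t 0 • D.qx R 1 + t 1 • D.qx R 2) +
    cc R D.b • (D.qy R 0 + t 0 • D.qy R 1 + t 1 • D.qy R 2) +
    linMulLin (LinearMap.proj 4) (D.l5 R 0 + t 0 • D.l5 R 1 + t 1 • D.l5 R 2)) +
    D.kap t • (D.Bq R 1 - t 0 • D.Bq R 0)

/-- `V = {w = 0}` -/
def emb : (Fin 4 → R) →ₗ[R] (Fin 5 → R) :=
  LinearMap.pi ![LinearMap.proj 0, LinearMap.proj 1, LinearMap.proj 2, LinearMap.proj 3, 0]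

/-- `Θ` -/
noncomputable def Dat.Th (D : Dat) (t : Fin 2 → R) : (Fin 4 → R) →ₗ[R] (Fin 4 → R) :=
  LinearMap.pi ![
    -D.kap t • LinearMap.proj 0 - (2 * cc R D.b) • (D.n t 1 0 • LinearMap.proj 2 +
      D.n t 1 1 • LinearMap.proj 3),
    -D.kap t • LinearMap.proj 1 + (2 * cc R D.b) • (D.n t 0 0 • LinearMap.proj 2 +
      D.n t 0 1 • LinearMap.proj 3),
    D.kap t • LinearMap.proj 2 + (2 * cc R D.a) • (D.n t 0 1 • LinearMap.proj 0 +
      D.n t 1 1 • LinearMap.proj 1),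
    D.kap t • LinearMap.proj 3 - (2 * cc R D.a) • (D.n t 0 0 • LinearMap.proj 0 +
      D.n t 1 0 • LinearMap.proj 1)]

/-- the direction with parameters `S`, `P` -/
noncomputable def Dat.vh (D : Dat) (t : Fin 2 → R) (S P : R) : Fin 4 → R :=
  ![1, S, P * D.n t 1 1, -(P * D.n t 1 0)]

/-! ### identities -/

theorem cc_def (u : ℂ) : algebraMap ℂ R u = cc R u := rfl

theorem cx_apply (D : Dat) (i j : Fin 3) (v : Fin 5 → R) :
    D.cx R i j v = cc R (D.A i 0 j) * v 0 + cc R (D.A i 1 j) * v 1 + cc R (D.A i 2 j) * v 4 := rfl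

theorem cy_apply (D : Dat) (i j : Fin 3) (v : Fin 5 → R) :
    D.cy R i j v = cc R (D.A i j 0) * v 2 + cc R (D.A i j 1) * v 3 + cc R (D.A i j 2) * v 4 := rfl

theorem Bq_apply (D : Dat) (i : Fin 3) (v : Fin 5 → R) :
    D.Bq R i v = v 2 * D.cx R i 0 v + v 3 * D.cx R i 1 v + v 4 * D.cx R i 2 v := rfl

theorem qx_apply (D : Dat) (i : Fin 3) (v : Fin 5 → R) :
    D.qx R i v = D.cx R (i + 1) 0 v * D.cx R (i + 2) 1 v -
      D.cx R (i + 1) 1 v * D.cx R (i + 2) 0 v := rfl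

theorem qy_apply (D : Dat) (i : Fin 3) (v : Fin 5 → R) :
    D.qy R i v = D.cy R (i + 1) 0 v * D.cy R (i + 2) 1 v -
      D.cy R (i + 1) 1 v * D.cy R (i + 2) 0 v := rfl

theorem l5_apply (D : Dat) (i : Fin 3) (v : Fin 5 → R) :
    D.l5 R i v = ∑ j : Fin 5, cc R (D.l i j.castSucc) * v j := by
  unfold Dat.l5
  rw [LinearMap.sum_apply]
  rfl

theorem mx_apply (D : Dat) (p : Fin 6 → R) (i j : Fin 3) :
    D.mx p i j = D.cx R i j (v5 p) + (if i = 0 ∧ j = 2 then p 5 else 0) := by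
  fin_cases i <;> fin_cases j <;>
    simp [Dat.mx, cx_apply, xv, v5, vecMul, dotProduct, Fin.sum_univ_three, cc_def] <;> ring

theorem my_apply (D : Dat) (p : Fin 6 → R) (i j : Fin 3) :
    D.my p i j = D.cy R i j (v5 p) + (if i = 0 ∧ j = 2 then p 5 else 0) := by
  fin_cases i <;> fin_cases j <;>
    simp [Dat.my, cy_apply, yv, v5, mulVec, dotProduct, Fin.sum_univ_three, cc_def]

theorem Q_apply (D : Dat) (p : Fin 6 → R) (i : Fin 3) :
    D.Q p i = D.Bq R i (v5 p) + (if i = 0 then p 4 * p 5 else 0) := by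
  fin_cases i <;>
    simp [Dat.Q, mulVec, dotProduct, Fin.sum_univ_three, mx_apply, Bq_apply, yv, v5] <;> ring

/-- `w F = ∑ Q i C i` -/
theorem w_mul_cubic (D : Dat) (p : Fin 6 → R) :
    p 4 * D.cubic p = ∑ i, D.Q p i * D.C p i := by
  simp only [Dat.cubic, det_fin_three, Fin.sum_univ_three, Dat.C, Q_apply, mx_apply, my_apply,
    Bq_apply, qx_apply, qy_apply, cc_def]
  simp only [show (0 : Fin 3) + 1 = 1 from rfl, show (0 : Fin 3) + 2 = 2 from rfl,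
    show (1 : Fin 3) + 1 = 2 from rfl, show (1 : Fin 3) + 2 = 0 from rfl,
    show (2 : Fin 3) + 1 = 0 from rfl, show (2 : Fin 3) + 2 = 1 from rfl]
  simp only [cx_apply, cy_apply, v5, Fin.isValue, Fin.castSucc_zero, Fin.castSucc_one]
  simp
  ring

theorem H1_apply (D : Dat) (t : Fin 2 → R) (v : Fin 5 → R) :
    D.H1 t v = t 0 * D.Bq R 2 v - t 1 * D.Bq R 1 v := rfl

theorem H2_apply (D : Dat) (t : Fin 2 → R) (v : Fin 5 → R) :
    D.H2 t v = t 0 * (cc R D.a * (D.qx R 0 v + t 0 * D.qx R 1 v + t 1 * D.qx R 2 v) +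
      cc R D.b * (D.qy R 0 v + t 0 * D.qy R 1 v + t 1 * D.qy R 2 v) +
      v 4 * (D.l5 R 0 v + t 0 * D.l5 R 1 v + t 1 * D.l5 R 2 v)) +
      D.kap t * (D.Bq R 1 v - t 0 * D.Bq R 0 v) := rfl

theorem H1_eq (D : Dat) (t : Fin 2 → R) (p : Fin 6 → R) :
    D.H1 t (v5 p) = t 0 * D.Q p 2 - t 1 * D.Q p 1 := by
  simp [H1_apply, Q_apply]

theorem H2_eq (D : Dat) (t : Fin 2 → R) (p : Fin 6 → R) :
    D.H2 t (v5 p) = t 0 * ∑ i, tv t i * D.C p i - D.kap t * (t 0 * D.Q p 0 - D.Q p 1) := by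
  simp only [H2_apply, Q_apply, Fin.sum_univ_three, tv, Dat.C, Dat.kap, l5_apply]
  simp [Fin.sum_univ_succ, v5]
  ring

theorem Th_apply (D : Dat) (t : Fin 2 → R) (v : Fin 4 → R) :
    D.Th t v = ![-D.kap t * v 0 - (2 * cc R D.b) * (D.n t 1 0 * v 2 + D.n t 1 1 * v 3),
      -D.kap t * v 1 + (2 * cc R D.b) * (D.n t 0 0 * v 2 + D.n t 0 1 * v 3),
      D.kap t * v 2 + (2 * cc R D.a) * (D.n t 0 1 * v 0 + D.n t 1 1 * v 1),
      D.kap t * v 3 - (2 * cc R D.a) * (D.n t 0 0 * v 0 + D.n t 1 0 * v 1)] := by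
  funext i
  fin_cases i <;> rfl

theorem emb_apply (v : Fin 4 → R) : emb v = ![v 0, v 1, v 2, v 3, 0] := by
  funext i
  fin_cases i <;> rfl

theorem Th_Th (D : Dat) (t : Fin 2 → R) (v : Fin 4 → R) :
    D.Th t (D.Th t v) = D.del t • v := by
  funext i
  fin_cases i <;> simp [Th_apply, Dat.del, Dat.dt] <;> ring

theorem skew1 (D : Dat) (t : Fin 2 → R) (v v' : Fin 4 → R) :
    polar (D.H1 t) (emb (D.Th t v)) (emb v') = -polar (D.H1 t) (emb v) (emb (D.Th t v')) := by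
  simp only [polar, H1_apply, Bq_apply, cx_apply, emb_apply, Th_apply, Pi.add_apply]
  simp [Dat.n]
  ring

theorem skew2 (D : Dat) (t : Fin 2 → R) (v v' : Fin 4 → R) :
    polar (D.H2 t) (emb (D.Th t v)) (emb v') = -polar (D.H2 t) (emb v) (emb (D.Th t v')) := by
  simp only [polar, H2_apply, Bq_apply, qx_apply, qy_apply, l5_apply, cx_apply, cy_apply,
    emb_apply, Th_apply, Pi.add_apply]
  simp [Dat.n]
  ring

theorem H1_vh (D : Dat) (t : Fin 2 → R) (S P : R) :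
    D.H1 t (emb (D.vh t S P)) = P * D.dt t := by
  simp only [H1_apply, Bq_apply, cx_apply, emb_apply, Dat.vh, Dat.dt]
  simp [Dat.n]
  ring

end Pool.Agent.Helper69.SD
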