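import Pool.Agent.Helper69.SD.Setup
import Pool.Agent.Helper69.SD.Nat
import Pool.Agent.Helper16.CommonZero

/-! # SD: coprimality (piece SD-6) -/

set_option autoImplicit false
set_option linter.unusedVariables false
set_option linter.unusedSectionVars false

namespace Pool.Agent.Helper69.SD

open MvPolynomial Module Matrix QuadraticMap Pool.Agent.Helper16

variable {D : Dat}

/-- piece `SD-6` (a): four forms of positive degree in six variables have a common nonzero zero, so a cubic form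
`g k + g' k'` (`g, g'` forms of degree one or two, `k, k'` of the complementary degree) is not smooth.  (Look for an existing version:
`exists_ne_zero_root`, `not_factor`, `irreducible_dh` in `Helper16/Cubic*.lean`, `Helper64/C18/*.lean`; otherwise: Nullstellensatz and
the height of an ideal with four generators, or `MvPolynomial` transcendence degree.) -/
theorem not_two_products {F : MvPolynomial (Fin 6) ℂ} (hF : F.IsHomogeneous 3) (hs : Smooth F)
    {g k g' k' : MvPolynomial (Fin 6) ℂ} {d d' : ℕ} (hd : 0 < d ∧ d < 3) (hd' : 0 < d' ∧ d' < 3)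
    (hg : g.IsHomogeneous d) (hk : k.IsHomogeneous (3 - d)) (hg' : g'.IsHomogeneous d')
    (hk' : k'.IsHomogeneous (3 - d')) : F ≠ g * k + g' * k' := by
  rintro rfl
  have h0 : ∀ {p : MvPolynomial (Fin 6) ℂ} {n : ℕ}, p.IsHomogeneous n → 0 < n → eval 0 p = 0 := by
    intro p n hp hn
    have h1 : eval (0 : Fin 6 → ℂ) p = coeff 0 p := by
      rw [eval_zero]; rfl
    rw [h1]
    refine hp.coeff_eq_zero ?_
    simp
    omega
  obtain ⟨x, hx, hx0⟩ := exists_common_zero ![g, k, g', k'] (by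
    intro i
    fin_cases i
    · exact h0 hg hd.1
    · exact h0 hk (by omega)
    · exact h0 hg' hd'.1
    · exact h0 hk' (by omega)) (by simp)
  obtain ⟨i, hi⟩ := hs x hx
  apply hi
  have e0 : eval x g = 0 := hx0 0
  have e1 : eval x k = 0 := hx0 1
  have e2 : eval x g' = 0 := hx0 2
  have e3 : eval x k' = 0 := hx0 3
  simp only [map_add, Derivation.leibniz, smul_eq_mul, map_mul, e0, e1, e2, e3]
  ring

/-- the dehomogenised quadrics `xᵀ A i y` -/
noncomputable def Dat.bq (D : Dat) (i : Fin 3) : MvPolynomial (Fin 4) ℂ :=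
  D.Bq R4 i ![X 0, X 1, X 2, X 3, 1]

private theorem bq_eval (D : Dat) (i : Fin 3) (v : Fin 4 → ℂ) :
    eval v (D.bq i) = v 2 * (D.A i 0 0 * v 0 + D.A i 1 0 * v 1 + D.A i 2 0) +
      v 3 * (D.A i 0 1 * v 0 + D.A i 1 1 * v 1 + D.A i 2 1) +
      (D.A i 0 2 * v 0 + D.A i 1 2 * v 1 + D.A i 2 2) := by
  simp [Dat.bq, Bq_apply, cx_apply, cc, MvPolynomial.algebraMap_eq]

/-- the dependent case -/
private theorem dep_false (hs : Smooth D.F) (ρ : ℂ) (i j : Fin 3) (hij : i = 1 ∧ j = 2 ∨ i = 2 ∧ j = 1)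
    (h : ∀ k m, D.A j k m = ρ * D.A i k m) : False := by
  have hlin : ∀ m : Fin 3, (∑ k, C (D.l m k) * X k : MvPolynomial (Fin 6) ℂ).IsHomogeneous 1 := by
    intro m
    refine IsHomogeneous.sum _ _ _ fun k _ => ?_
    have := (isHomogeneous_C (Fin 6) (D.l m k)).mul (isHomogeneous_X ℂ k)
    rwa [zero_add] at this
  have hcx : ∀ m k : Fin 3, (D.cx (MvPolynomial (Fin 6) ℂ) m k (v5 X)).IsHomogeneous 1 := by
    intro m k
    have h1 : ∀ (c : ℂ) (e : Fin 6), (C c * X e : MvPolynomial (Fin 6) ℂ).IsHomogeneous 1 := by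
      intro c e
      have := (isHomogeneous_C (Fin 6) c).mul (isHomogeneous_X ℂ e)
      rwa [zero_add] at this
    rw [cx_apply]
    exact ((h1 _ _).add (h1 _ _)).add (h1 _ _)
  have hQ : ∀ m : Fin 3, (D.Q (X : Fin 6 → MvPolynomial (Fin 6) ℂ) m).IsHomogeneous 2 := by
    intro m
    have hX : ∀ e : Fin 5, (v5 (X : Fin 6 → MvPolynomial (Fin 6) ℂ) e).IsHomogeneous 1 :=
      fun e => isHomogeneous_X ℂ _
    rw [Q_apply, Bq_apply]
    refine IsHomogeneous.add ((((hX 2).mul (hcx m 0)).add ((hX 3).mul (hcx m 1))).add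
      ((hX 4).mul (hcx m 2))) ?_
    split_ifs
    · exact (isHomogeneous_X ℂ _).mul (isHomogeneous_X ℂ _)
    · exact isHomogeneous_zero _ _ _
  have hcx' : ∀ m, D.cx (MvPolynomial (Fin 6) ℂ) j m (v5 X) =
      C ρ * D.cx (MvPolynomial (Fin 6) ℂ) i m (v5 X) := by
    intro m
    simp only [cx_apply, cc, MvPolynomial.algebraMap_eq, h, C_mul]
    ring
  have hcy' : ∀ m, D.cy (MvPolynomial (Fin 6) ℂ) j m (v5 X) =
      C ρ * D.cy (MvPolynomial (Fin 6) ℂ) i m (v5 X) := by
    intro m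
    simp only [cy_apply, cc, MvPolynomial.algebraMap_eq, h, C_mul]
    ring
  have hBq : D.Bq (MvPolynomial (Fin 6) ℂ) j (v5 X) = C ρ * D.Bq (MvPolynomial (Fin 6) ℂ) i (v5 X) := by
    simp only [Bq_apply, hcx']
    ring
  have hFeq : D.F = (∑ k, C (D.l 0 k) * X k) * D.Q X 0 +
      ((∑ k, C (D.l i k) * X k) + C ρ * ∑ k, C (D.l j k) * X k) * D.Q X i := by
    rcases hij with ⟨rfl, rfl⟩ | ⟨rfl, rfl⟩
    all_goals
      simp only [Dat.F, Dat.cubic, det_fin_three, Fin.sum_univ_three, Q_apply, mx_apply, my_apply,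
        MvPolynomial.algebraMap_eq, hcx', hcy', hBq]
      simp
      ring
  have hL : ((∑ k, C (D.l i k) * X k) + C ρ * ∑ k, C (D.l j k) * X k :
      MvPolynomial (Fin 6) ℂ).IsHomogeneous 1 := by
    refine (hlin i).add ?_
    have := (isHomogeneous_C (Fin 6) ρ).mul (hlin j)
    rwa [zero_add] at this
  have hF3 : D.F.IsHomogeneous 3 := by
    rw [hFeq]
    exact ((hlin 0).mul (hQ 0)).add (hL.mul (hQ i))
  exact not_two_products hF3 hs (d := 1) (d' := 1) (by norm_num) (by norm_num) (hlin 0) (hQ 0) hL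
    (hQ i) hFeq

/-- linear relations between the quadrics are linear relations between the matrices -/
private theorem rel_entries {μ μ' : ℂ} (h : ∀ v : Fin 4 → ℂ, μ * eval v (D.bq 1) + μ' * eval v (D.bq 2) = 0)
    (k m : Fin 3) : μ * D.A 1 k m + μ' * D.A 2 k m = 0 := by
  have h00 := h ![0, 0, 0, 0]
  have h10 := h ![1, 0, 0, 0]
  have h20 := h ![0, 1, 0, 0]
  have h01 := h ![0, 0, 1, 0]
  have h02 := h ![0, 0, 0, 1]
  have h11 := h ![1, 0, 1, 0]
  have h12 := h ![1, 0, 0, 1]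
  have h21 := h ![0, 1, 1, 0]
  have h22 := h ![0, 1, 0, 1]
  simp only [bq_eval] at h00 h10 h20 h01 h02 h11 h12 h21 h22
  simp at h00 h10 h20 h01 h02 h11 h12 h21 h22
  fin_cases k <;> fin_cases m
  · change μ * D.A 1 0 0 + μ' * D.A 2 0 0 = 0
    linear_combination h11 - h10 - h01 + h00
  · change μ * D.A 1 0 1 + μ' * D.A 2 0 1 = 0
    linear_combination h12 - h10 - h02 + h00
  · change μ * D.A 1 0 2 + μ' * D.A 2 0 2 = 0
    linear_combination h10 - h00
  · change μ * D.A 1 1 0 + μ' * D.A 2 1 0 = 0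
    linear_combination h21 - h20 - h01 + h00
  · change μ * D.A 1 1 1 + μ' * D.A 2 1 1 = 0
    linear_combination h22 - h20 - h02 + h00
  · change μ * D.A 1 1 2 + μ' * D.A 2 1 2 = 0
    linear_combination h20 - h00
  · change μ * D.A 1 2 0 + μ' * D.A 2 2 0 = 0
    linear_combination h01 - h00
  · change μ * D.A 1 2 1 + μ' * D.A 2 2 1 = 0
    linear_combination h02 - h00
  · change μ * D.A 1 2 2 + μ' * D.A 2 2 2 = 0
    linear_combination h00

private theorem dep_false' (hs : Smooth D.F) {μ μ' : ℂ} (hμ : μ ≠ 0 ∨ μ' ≠ 0)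
    (h : ∀ v : Fin 4 → ℂ, μ * eval v (D.bq 1) + μ' * eval v (D.bq 2) = 0) : False := by
  rcases hμ with h0 | h0
  · refine dep_false hs (-μ' / μ) 2 1 (Or.inr ⟨rfl, rfl⟩) fun k m => ?_
    have := rel_entries h k m
    field_simp
    linear_combination this
  · refine dep_false hs (-μ / μ') 1 2 (Or.inl ⟨rfl, rfl⟩) fun k m => ?_
    have := rel_entries h k m
    field_simp
    linear_combination this

/-- the degree in a group of variables: `X i ↦ T X i` for `i ∈ s` -/
private noncomputable def gr (s : Fin 4 → Prop) [DecidablePred s] : R4 →ₐ[ℂ] Polynomial R4 :=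
  aeval fun i => if s i then Polynomial.X * Polynomial.C (X i) else Polynomial.C (X i)

private theorem gr_one (s : Fin 4 → Prop) [DecidablePred s] (p : R4) : (gr s p).eval 1 = p := by
  have h : ((Polynomial.evalRingHom (1 : R4)).comp (gr s).toRingHom) = RingHom.id R4 := by
    refine MvPolynomial.ringHom_ext (fun r => ?_) fun i => ?_
    · simp [gr]
    · simp only [gr, RingHom.comp_apply, AlgHom.toRingHom_eq_coe, RingHom.coe_coe, aeval_X,
        RingHom.id_apply, Polynomial.coe_evalRingHom]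
      split_ifs <;> simp
  exact RingHom.congr_fun h p

private theorem gr_eval_zero (s : Fin 4 → Prop) [DecidablePred s] (p : R4) (v : Fin 4 → ℂ) :
    eval v ((gr s p).eval 0) = eval (fun i => if s i then 0 else v i) p := by
  have h : ((eval v).comp ((Polynomial.evalRingHom (0 : R4)).comp (gr s).toRingHom)) =
      eval (fun i => if s i then 0 else v i) := by
    refine MvPolynomial.ringHom_ext (fun r => ?_) fun i => ?_
    · simp [gr]
    · simp only [gr, RingHom.comp_apply, AlgHom.toRingHom_eq_coe, RingHom.coe_coe, aeval_X,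
        Polynomial.coe_evalRingHom, eval_X]
      split_ifs <;> simp
  exact RingHom.congr_fun h p

private theorem gr_ne (s : Fin 4 → Prop) [DecidablePred s] {p : R4} (hp : p ≠ 0) : gr s p ≠ 0 := by
  intro h
  apply hp
  rw [← gr_one s p, h, Polynomial.eval_zero]

/-- a polynomial of degree zero does not depend on the variables of the group -/
private theorem gr_const (s : Fin 4 → Prop) [DecidablePred s] {p : R4}
    (hp : (gr s p).natDegree = 0) (v v' : Fin 4 → ℂ) (h : ∀ i, ¬ s i → v i = v' i) :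
    eval v p = eval v' p := by
  obtain ⟨c, hc⟩ := Polynomial.natDegree_eq_zero.1 hp
  have h1 : c = p := by
    rw [← gr_one s p, ← hc, Polynomial.eval_C]
  have h2 : (gr s p).eval 0 = p := by
    rw [← hc, Polynomial.eval_C, h1]
  have h3 := gr_eval_zero s p v
  have h4 := gr_eval_zero s p v'
  rw [h2] at h3 h4
  rw [h3, h4]
  congr 2
  funext i
  split_ifs with hi
  · rfl
  · exact h i hi

private theorem gr_bq_x (D : Dat) (i : Fin 3) : (gr (fun i => i = 0 ∨ i = 1) (D.bq i)).natDegree ≤ 1 := by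
  have h1 : gr (fun i => i = 0 ∨ i = 1) (D.bq i) =
      Polynomial.C (X 2 * (cc R4 (D.A i 0 0) * X 0 + cc R4 (D.A i 1 0) * X 1) +
        X 3 * (cc R4 (D.A i 0 1) * X 0 + cc R4 (D.A i 1 1) * X 1) +
        (cc R4 (D.A i 0 2) * X 0 + cc R4 (D.A i 1 2) * X 1)) * Polynomial.X +
      Polynomial.C (X 2 * cc R4 (D.A i 2 0) + X 3 * cc R4 (D.A i 2 1) + cc R4 (D.A i 2 2)) := by
    rw [Dat.bq, map_Bq, Bq_apply, cx_apply, cx_apply, cx_apply]
    have hcc : ∀ u : ℂ, cc (Polynomial R4) u = Polynomial.C (cc R4 u) := fun u => rfl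
    simp only [hcc, Function.comp_apply, map_add, map_mul]
    simp [gr]
    ring
  rw [h1]
  exact Polynomial.natDegree_linear_le

private theorem gr_bq_y (D : Dat) (i : Fin 3) : (gr (fun i => i = 2 ∨ i = 3) (D.bq i)).natDegree ≤ 1 := by
  have h1 : gr (fun i => i = 2 ∨ i = 3) (D.bq i) =
      Polynomial.C (X 2 * (cc R4 (D.A i 0 0) * X 0 + cc R4 (D.A i 1 0) * X 1 + cc R4 (D.A i 2 0)) +
        X 3 * (cc R4 (D.A i 0 1) * X 0 + cc R4 (D.A i 1 1) * X 1 + cc R4 (D.A i 2 1))) *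
        Polynomial.X +
      Polynomial.C (cc R4 (D.A i 0 2) * X 0 + cc R4 (D.A i 1 2) * X 1 + cc R4 (D.A i 2 2)) := by
    rw [Dat.bq, map_Bq, Bq_apply, cx_apply, cx_apply, cx_apply]
    have hcc : ∀ u : ℂ, cc (Polynomial R4) u = Polynomial.C (cc R4 u) := fun u => rfl
    simp only [hcc, Function.comp_apply, map_add, map_mul]
    simp [gr]
    ring
  rw [h1]
  exact Polynomial.natDegree_linear_le

/-- a pencil of matrices `a_k u_j` is degenerate -/
private theorem dt_zero (D : Dat) (c : Fin 2 → ℂ) (a u1 u2 : Fin 2 → ℂ)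
    (h1 : D.A 1 0 0 = a 0 * u1 0 ∧ D.A 1 1 0 = a 0 * u1 1 ∧ D.A 1 0 1 = a 1 * u1 0 ∧
      D.A 1 1 1 = a 1 * u1 1)
    (h2 : D.A 2 0 0 = a 0 * u2 0 ∧ D.A 2 1 0 = a 0 * u2 1 ∧ D.A 2 0 1 = a 1 * u2 0 ∧
      D.A 2 1 1 = a 1 * u2 1) : D.dt c = 0 := by
  obtain ⟨p1, p2, p3, p4⟩ := h1
  obtain ⟨q1, q2, q3, q4⟩ := h2
  simp only [Dat.dt, Dat.n, cc, Algebra.algebraMap_self, RingHom.id_apply, p1, p2, p3, p4, q1, q2, q3,
    q4]
  ring

private theorem dt_zero' (D : Dat) (c : Fin 2 → ℂ) (a u1 u2 : Fin 2 → ℂ)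
    (h1 : D.A 1 0 0 = a 0 * u1 0 ∧ D.A 1 1 0 = a 1 * u1 0 ∧ D.A 1 0 1 = a 0 * u1 1 ∧
      D.A 1 1 1 = a 1 * u1 1)
    (h2 : D.A 2 0 0 = a 0 * u2 0 ∧ D.A 2 1 0 = a 1 * u2 0 ∧ D.A 2 0 1 = a 0 * u2 1 ∧
      D.A 2 1 1 = a 1 * u2 1) : D.dt c = 0 := by
  obtain ⟨p1, p2, p3, p4⟩ := h1
  obtain ⟨q1, q2, q3, q4⟩ := h2
  simp only [Dat.dt, Dat.n, cc, Algebra.algebraMap_self, RingHom.id_apply, p1, p2, p3, p4, q1, q2, q3,
    q4]
  ring

/-- second differences -/
private theorem bq_diff (D : Dat) (i : Fin 3) (b : ℂ → ℂ → ℂ → ℂ → ℂ)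
    (hb : ∀ v : Fin 4 → ℂ, eval v (D.bq i) = b (v 0) (v 1) (v 2) (v 3)) :
    D.A i 0 0 = b 1 0 1 0 - b 1 0 0 0 - b 0 0 1 0 + b 0 0 0 0 ∧
    D.A i 1 0 = b 0 1 1 0 - b 0 1 0 0 - b 0 0 1 0 + b 0 0 0 0 ∧
    D.A i 0 1 = b 1 0 0 1 - b 1 0 0 0 - b 0 0 0 1 + b 0 0 0 0 ∧
    D.A i 1 1 = b 0 1 0 1 - b 0 1 0 0 - b 0 0 0 1 + b 0 0 0 0 := by
  have h : ∀ p q r s : ℂ, b p q r s = r * (D.A i 0 0 * p + D.A i 1 0 * q + D.A i 2 0) +
      s * (D.A i 0 1 * p + D.A i 1 1 * q + D.A i 2 1) +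
      (D.A i 0 2 * p + D.A i 1 2 * q + D.A i 2 2) := by
    intro p q r s
    have h1 := hb ![p, q, r, s]
    rw [bq_eval] at h1
    exact h1.symm
  simp only [h]
  refine ⟨by ring, by ring, by ring, by ring⟩

/-- piece `SD-6` (b): `xᵀ A 1 y` and `xᵀ A 2 y` (`w = 1`) are coprime.

Proof.  They have degree at most one in `x` and in `y`.  Let `d` be a common divisor.  If `d` has degree one in both, they are
proportional to `d`, so `A 1` and `A 2` are proportional and the cubic is a sum of two products.  If `d` has degree one in `x` only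
(or in `y` only), the `2 x 2` blocks have the form `a_j u_k` with the same `a`, so all `dt c` vanish.  Otherwise `d` is
constant. -/
theorem bq_coprime (hs : Smooth D.F) (hn : ∃ c : Fin 2 → ℂ, D.dt c ≠ 0) :
    IsRelPrime (D.bq 1) (D.bq 2) := by
  obtain ⟨c, hc⟩ := hn
  by_cases hb1 : D.bq 1 = 0
  · exact (dep_false' hs (μ := 1) (μ' := 0) (Or.inl one_ne_zero) (fun v => by
      rw [hb1, map_zero]; ring)).elim
  by_cases hb2 : D.bq 2 = 0
  · exact (dep_false' hs (μ := 0) (μ' := 1) (Or.inr one_ne_zero) (fun v => by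
      rw [hb2, map_zero]; ring)).elim
  intro d hd1 hd2
  obtain ⟨m1, h1⟩ := hd1
  obtain ⟨m2, h2⟩ := hd2
  have hd0 : d ≠ 0 := by
    rintro rfl
    exact hb1 (by rw [h1, zero_mul])
  have hm1 : m1 ≠ 0 := by
    rintro rfl
    exact hb1 (by rw [h1, mul_zero])
  have hm2 : m2 ≠ 0 := by
    rintro rfl
    exact hb2 (by rw [h2, mul_zero])
  have hdeg : ∀ (s : Fin 4 → Prop) [DecidablePred s] (m : R4), m ≠ 0 →
      (gr s (d * m)).natDegree ≤ 1 → (gr s d).natDegree + (gr s m).natDegree ≤ 1 := by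
    intro s _ m hm h
    rwa [map_mul, Polynomial.natDegree_mul (gr_ne s hd0) (gr_ne s hm)] at h
  have hx1 := hdeg (fun i => i = 0 ∨ i = 1) m1 hm1 (by rw [← h1]; exact gr_bq_x D 1)
  have hx2 := hdeg (fun i => i = 0 ∨ i = 1) m2 hm2 (by rw [← h2]; exact gr_bq_x D 2)
  have hy1 := hdeg (fun i => i = 2 ∨ i = 3) m1 hm1 (by rw [← h1]; exact gr_bq_y D 1)
  have hy2 := hdeg (fun i => i = 2 ∨ i = 3) m2 hm2 (by rw [← h2]; exact gr_bq_y D 2)
  -- independence of `x`, of `y`
  have indx : ∀ p : R4, (gr (fun i => i = 0 ∨ i = 1) p).natDegree = 0 → ∀ v : Fin 4 → ℂ,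
      eval v p = eval ![0, 0, v 2, v 3] p := by
    intro p hp v
    refine gr_const _ hp _ _ fun i hi => ?_
    fin_cases i <;> simp at hi ⊢
  have indy : ∀ p : R4, (gr (fun i => i = 2 ∨ i = 3) p).natDegree = 0 → ∀ v : Fin 4 → ℂ,
      eval v p = eval ![v 0, v 1, 0, 0] p := by
    intro p hp v
    refine gr_const _ hp _ _ fun i hi => ?_
    fin_cases i <;> simp at hi ⊢
  have hconst : ∀ p : R4, (gr (fun i => i = 0 ∨ i = 1) p).natDegree = 0 →
      (gr (fun i => i = 2 ∨ i = 3) p).natDegree = 0 → p = C (eval 0 p) := by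
    intro p hpx hpy
    refine MvPolynomial.funext fun v => ?_
    rw [eval_C, indx p hpx v, indy p hpy]
    congr 2
    funext i
    fin_cases i <;> rfl
  by_cases hdx : (gr (fun i => i = 0 ∨ i = 1) d).natDegree = 0
  · by_cases hdy : (gr (fun i => i = 2 ∨ i = 3) d).natDegree = 0
    · have h3 := hconst d hdx hdy
      rw [h3]
      refine IsUnit.map C (isUnit_iff_ne_zero.2 fun h4 => hd0 ?_)
      rw [h3, h4, C_0]
    · -- `d` depends on `y` only
      exfalso
      apply hc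
      have hm1y : (gr (fun i => i = 2 ∨ i = 3) m1).natDegree = 0 := by omega
      have hm2y : (gr (fun i => i = 2 ∨ i = 3) m2).natDegree = 0 := by omega
      have e1 := bq_diff D 1 (fun p q r s => eval ![0, 0, r, s] d * eval ![p, q, 0, 0] m1)
        (fun v => by rw [h1, map_mul, indx d hdx v, indy m1 hm1y v])
      have e2 := bq_diff D 2 (fun p q r s => eval ![0, 0, r, s] d * eval ![p, q, 0, 0] m2)
        (fun v => by rw [h2, map_mul, indx d hdx v, indy m2 hm2y v])
      refine dt_zero D c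
        ![eval ![0, 0, 1, 0] d - eval ![0, 0, 0, 0] d, eval ![0, 0, 0, 1] d - eval ![0, 0, 0, 0] d]
        ![eval ![1, 0, 0, 0] m1 - eval ![0, 0, 0, 0] m1,
          eval ![0, 1, 0, 0] m1 - eval ![0, 0, 0, 0] m1]
        ![eval ![1, 0, 0, 0] m2 - eval ![0, 0, 0, 0] m2,
          eval ![0, 1, 0, 0] m2 - eval ![0, 0, 0, 0] m2] ?_ ?_
      · obtain ⟨q1, q2, q3, q4⟩ := e1
        refine ⟨?_, ?_, ?_, ?_⟩
        · rw [q1]; simp; ring
        · rw [q2]; simp; ring
        · rw [q3]; simp; ring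
        · rw [q4]; simp; ring
      · obtain ⟨q1, q2, q3, q4⟩ := e2
        refine ⟨?_, ?_, ?_, ?_⟩
        · rw [q1]; simp; ring
        · rw [q2]; simp; ring
        · rw [q3]; simp; ring
        · rw [q4]; simp; ring
  · have hm1x : (gr (fun i => i = 0 ∨ i = 1) m1).natDegree = 0 := by omega
    have hm2x : (gr (fun i => i = 0 ∨ i = 1) m2).natDegree = 0 := by omega
    exfalso
    by_cases hdy : (gr (fun i => i = 2 ∨ i = 3) d).natDegree = 0
    · apply hc
      have e1 := bq_diff D 1 (fun p q r s => eval ![p, q, 0, 0] d * eval ![0, 0, r, s] m1)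
        (fun v => by rw [h1, map_mul, indy d hdy v, indx m1 hm1x v])
      have e2 := bq_diff D 2 (fun p q r s => eval ![p, q, 0, 0] d * eval ![0, 0, r, s] m2)
        (fun v => by rw [h2, map_mul, indy d hdy v, indx m2 hm2x v])
      refine dt_zero' D c
        ![eval ![1, 0, 0, 0] d - eval ![0, 0, 0, 0] d, eval ![0, 1, 0, 0] d - eval ![0, 0, 0, 0] d]
        ![eval ![0, 0, 1, 0] m1 - eval ![0, 0, 0, 0] m1,
          eval ![0, 0, 0, 1] m1 - eval ![0, 0, 0, 0] m1]
        ![eval ![0, 0, 1, 0] m2 - eval ![0, 0, 0, 0] m2,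
          eval ![0, 0, 0, 1] m2 - eval ![0, 0, 0, 0] m2] ?_ ?_
      · obtain ⟨q1, q2, q3, q4⟩ := e1
        refine ⟨?_, ?_, ?_, ?_⟩
        · rw [q1]; simp; ring
        · rw [q2]; simp; ring
        · rw [q3]; simp; ring
        · rw [q4]; simp; ring
      · obtain ⟨q1, q2, q3, q4⟩ := e2
        refine ⟨?_, ?_, ?_, ?_⟩
        · rw [q1]; simp; ring
        · rw [q2]; simp; ring
        · rw [q3]; simp; ring
        · rw [q4]; simp; ring
    · have hm1y : (gr (fun i => i = 2 ∨ i = 3) m1).natDegree = 0 := by omega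
      have hm2y : (gr (fun i => i = 2 ∨ i = 3) m2).natDegree = 0 := by omega
      have h3 := hconst m1 hm1x hm1y
      have h4 := hconst m2 hm2x hm2y
      have h5 : eval 0 m2 ≠ 0 := by
        intro h6
        rw [h6, C_0] at h4
        exact hm2 h4
      refine dep_false' hs (μ := eval 0 m2) (μ' := -eval 0 m1) (Or.inl h5) fun v => ?_
      rw [h1, h2, map_mul, map_mul]
      have e3 : eval v m1 = eval 0 m1 := by rw [h3, eval_C, eval_C]
      have e4 : eval v m2 = eval 0 m2 := by rw [h4, eval_C, eval_C]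
      rw [e3, e4]
      ring

end Pool.Agent.Helper69.SD
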