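import Mathlib

/-! # SD: cubic fourfolds fibred in nodal sextic del Pezzo surfaces (definitions) -/

set_option autoImplicit false
set_option linter.unusedVariables false

namespace Pool.Agent.Helper69.SD

open MvPolynomial Module Matrix

/-- The parameters of the normal form: three 3 x 3 matrices, two numbers, three linear forms in the
six variables `(x₁, x₂, y₁, y₂, w, z)`. -/
structure Dat where
  A : Fin 3 → Matrix (Fin 3) (Fin 3) ℂ
  a : ℂ
  b : ℂ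
  l : Fin 3 → Fin 6 → ℂ

variable {R : Type} [CommRing R] [Algebra ℂ R]

/-- `p = (x₁, x₂, y₁, y₂, w, z)`, `x = (x₁, x₂, w)` -/
def xv (p : Fin 6 → R) : Fin 3 → R := ![p 0, p 1, p 4]

/-- `y = (y₁, y₂, w)` -/
def yv (p : Fin 6 → R) : Fin 3 → R := ![p 2, p 3, p 4]

/-- The matrix with rows `xᵀ A 0 + (0, 0, z)`, `xᵀ A 1`, `xᵀ A 2`. -/
def Dat.mx (D : Dat) (p : Fin 6 → R) : Matrix (Fin 3) (Fin 3) R :=
  Matrix.of fun i => xv p ᵥ* (D.A i).map (algebraMap ℂ R) + ![![0, 0, p 5], 0, 0] i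

/-- The matrix with rows `A 0 y + (0, 0, z)`, `A 1 y`, `A 2 y`. -/
def Dat.my (D : Dat) (p : Fin 6 → R) : Matrix (Fin 3) (Fin 3) R :=
  Matrix.of fun i => (D.A i).map (algebraMap ℂ R) *ᵥ yv p + ![![0, 0, p 5], 0, 0] i

/-- The three quadrics `xᵀ A 0 y + w z`, `xᵀ A 1 y`, `xᵀ A 2 y`. -/
def Dat.Q (D : Dat) (p : Fin 6 → R) : Fin 3 → R := D.mx p *ᵥ yv p

/-- The cubic form. -/
def Dat.cubic (D : Dat) (p : Fin 6 → R) : R :=
  algebraMap ℂ R D.a * (D.mx p).det + algebraMap ℂ R D.b * (D.my p).det +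
    ∑ i, (∑ j, algebraMap ℂ R (D.l i j) * p j) * D.Q p i

/-- The rational map `(Q 0 : Q 1 : Q 2)` from the fourfold to the plane has a rational section which
is not contained in the hyperplane `w = 0`. -/
def Dat.RationalSection (D : Dat) : Prop :=
  ∃ s : Fin 6 → MvPolynomial (Fin 2) ℂ, D.cubic s = 0 ∧ s 4 ≠ 0 ∧ D.Q s 0 ≠ 0 ∧
    D.Q s 1 = X 0 * D.Q s 0 ∧ D.Q s 2 = X 1 * D.Q s 0

end Pool.Agent.Helper69.SD
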