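import Mathlib

/-! # SD: two coprime equations (piece SD-7) -/

set_option autoImplicit false
set_option linter.unusedVariables false
set_option linter.unusedSectionVars false

namespace Pool.Agent.Helper69.SD

open MvPolynomial

private theorem sd7_alg {ι K : Type} [Field K] [Algebra ℂ K] (y : ι → K)
    (hr : IntermediateField.adjoin ℂ (Set.range y) = ⊤) :
    Algebra.IsAlgebraic (Algebra.adjoin ℂ (Set.range y)) K := by
  constructor
  intro a
  have hy : a ∈ IntermediateField.adjoin ℂ (Set.range y) := by rw [hr]; trivial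
  obtain ⟨c, hc, b, hb, hab⟩ := IntermediateField.mem_adjoin_iff_div.mp hy
  by_cases hb0 : b = 0
  · have hy0 : a = 0 := by rw [hab, hb0, div_zero]
    rw [hy0]; exact isAlgebraic_zero
  · refine ⟨Polynomial.C ⟨b, hb⟩ * Polynomial.X - Polynomial.C ⟨c, hc⟩, ?_, ?_⟩
    · intro h0
      have h1 := congrArg (fun p => Polynomial.coeff p 1) h0
      simp [Polynomial.coeff_C] at h1
      exact hb0 (congrArg Subtype.val h1)
    · simp only [map_sub, map_mul, Polynomial.aeval_C, Polynomial.aeval_X]
      change b * a - c = 0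
      rw [hab]; field_simp; ring

private theorem sd7_dvd {K : Type} [Field K] [Algebra ℂ K] {n : ℕ}
    {f : MvPolynomial (Fin (n + 1)) ℂ} (hf : Irreducible f) {y : Fin (n + 1) → K}
    (h0 : aeval y f = 0) {i : Fin (n + 1)}
    (hi : AlgebraicIndependent ℂ (fun k => y (i.succAbove k)))
    {q : MvPolynomial (Fin (n + 1)) ℂ} (hq : aeval y q = 0) : f ∣ q := by
  classical
  by_contra hnd
  have hprime : (Ideal.span {f}).IsPrime := (Ideal.span_singleton_prime hf.ne_zero).mpr hf.prime
  have hdom : IsDomain (MvPolynomial (Fin (n + 1)) ℂ ⧸ Ideal.span {f}) := Ideal.Quotient.isDomain _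
  let π : MvPolynomial (Fin (n + 1)) ℂ →ₐ[ℂ] MvPolynomial (Fin (n + 1)) ℂ ⧸ Ideal.span {f} :=
    Ideal.Quotient.mkₐ ℂ _
  let φ : (MvPolynomial (Fin (n + 1)) ℂ ⧸ Ideal.span {f}) →ₐ[ℂ] K :=
    Ideal.Quotient.liftₐ _ (aeval y) (by
      intro a ha
      obtain ⟨b, rfl⟩ := Ideal.mem_span_singleton.1 ha
      rw [map_mul, h0, zero_mul])
  have hφ : ∀ p, φ (π p) = aeval y p := fun p => rfl
  let xb : Fin (n + 1) → MvPolynomial (Fin (n + 1)) ℂ ⧸ Ideal.span {f} := fun j => π (X j)
  have hxb : ∀ p, aeval xb p = π p := by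
    intro p
    have h1 : (aeval xb : MvPolynomial (Fin (n + 1)) ℂ →ₐ[ℂ] _) = π := by
      apply MvPolynomial.algHom_ext
      intro j
      rw [aeval_X]
    rw [h1]
  have h1 : AlgebraicIndependent ℂ (fun k => xb (i.succAbove k)) := by
    refine AlgebraicIndependent.of_comp φ ?_
    have h2 : (φ ∘ fun k => xb (i.succAbove k)) = fun k => y (i.succAbove k) := by
      funext k
      change φ (π (X _)) = _
      rw [hφ, aeval_X]
    rw [h2]
    exact hi
  set C0 := Algebra.adjoin ℂ (Set.range fun k => xb (i.succAbove k)) with hC0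
  have h2 : IsAlgebraic C0 (xb i) := by
    by_contra h3
    have h4 := (h1.option_iff_transcendental (xb i)).2 h3
    have h5 := h4.comp (finSuccEquiv' i) (finSuccEquiv' i).injective
    have h6 : ((fun o : Option (Fin n) => o.elim (xb i) fun k => xb (i.succAbove k)) ∘
        (finSuccEquiv' i)) = xb := by
      funext j
      rw [Function.comp_apply]
      rcases Fin.eq_self_or_eq_succAbove i j with rfl | ⟨k, rfl⟩
      · rw [finSuccEquiv'_at]
        rfl
      · rw [finSuccEquiv'_succAbove]
        rfl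
    rw [h6] at h5
    refine hf.ne_zero ((algebraicIndependent_iff.1 h5) f ?_)
    rw [hxb]
    exact Ideal.Quotient.eq_zero_iff_mem.mpr (Ideal.mem_span_singleton_self _)
  have h3 : ∀ p, IsAlgebraic C0 (π p) := by
    intro p
    induction p using MvPolynomial.induction_on with
    | C a =>
      have h4 : π (C a) = algebraMap C0 _ (algebraMap ℂ C0 a) := π.commutes a
      rw [h4]
      exact isAlgebraic_algebraMap _
    | add p q hp hq => rw [map_add]; exact hp.add hq
    | mul_X p j hp =>
      rw [map_mul]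
      refine hp.mul ?_
      rcases Fin.eq_self_or_eq_succAbove i j with rfl | ⟨k, rfl⟩
      · exact h2
      · have h4 : xb (i.succAbove k) ∈ C0 := Algebra.subset_adjoin ⟨k, rfl⟩
        exact isAlgebraic_algebraMap (⟨_, h4⟩ : C0)
  have h4 : π q ≠ 0 := by
    intro h5
    exact hnd (Ideal.mem_span_singleton.1 (Ideal.Quotient.eq_zero_iff_mem.1 h5))
  obtain ⟨c, hc, hdvd⟩ := (h3 q).exists_nonzero_dvd (mem_nonZeroDivisors_of_ne_zero h4)
  have h5 : φ (c : MvPolynomial (Fin (n + 1)) ℂ ⧸ Ideal.span {f}) = 0 := by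
    obtain ⟨b, hb⟩ := hdvd
    change φ (algebraMap C0 _ c) = 0
    rw [hb, map_mul, hφ, hq, zero_mul]
  have h6 : ∀ a ∈ C0, ∃ p : MvPolynomial (Fin n) ℂ,
      aeval (fun k => xb (i.succAbove k)) p = a := by
    rw [hC0, Algebra.adjoin_range_eq_range_aeval]
    rintro a ⟨p, hp⟩
    exact ⟨p, hp⟩
  obtain ⟨p, hp⟩ := h6 _ c.2
  have hp' : aeval (fun k => xb (i.succAbove k)) p
      = (c : MvPolynomial (Fin (n + 1)) ℂ ⧸ Ideal.span {f}) := hp
  have h7 : aeval (fun k => y (i.succAbove k)) p = 0 := by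
    rw [← h5, ← hp']
    have h8 : (aeval (fun k => y (i.succAbove k)) : MvPolynomial (Fin n) ℂ →ₐ[ℂ] K)
        = φ.comp (aeval (fun k => xb (i.succAbove k))) := by
      apply MvPolynomial.algHom_ext
      intro k
      rw [AlgHom.comp_apply, aeval_X, aeval_X]
      change _ = φ (π (X _))
      rw [hφ, aeval_X]
    rw [h8]
    rfl
  have h8 := (algebraicIndependent_iff.1 hi) p h7
  apply hc
  apply Subtype.ext
  rw [← hp', h8, map_zero]
  rfl

private theorem sd7_sel {K : Type} [Field K] [Algebra ℂ K] (x : Fin 4 → K) (y : Fin 5 → K)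
    (hx : AlgebraicIndependent ℂ x) (hy : IntermediateField.adjoin ℂ (Set.range y) = ⊤) :
    ∃ i : Fin 4, AlgebraicIndependent ℂ (fun k => y (i.succAbove k).succ) := by
  classical
  have halg := sd7_alg y hy
  obtain ⟨u, hu, hb⟩ := exists_isTranscendenceBasis_subset (R := ℂ) (Set.range y)
  choose g hg using fun a : u => hu a.2
  have hginj : Function.Injective g := by
    intro a b hab
    apply Subtype.ext
    rw [← hg a, ← hg b, hab]
  have hfin : Finite u := Finite.of_injective g hginj
  have h4 : 4 ≤ Nat.card u := by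
    have h5 : Cardinal.lift.{0} (Cardinal.mk (Fin 4)) ≤ Cardinal.lift.{0} (Algebra.trdeg ℂ K) :=
      hx.lift_cardinalMk_le_trdeg
    rw [Cardinal.lift_id, Cardinal.lift_id, ← hb.cardinalMk_eq_trdeg, Cardinal.mk_fin,
      ← Nat.cast_card] at h5
    exact_mod_cast h5
  -- at most one index is missing
  obtain ⟨j, hj⟩ : ∃ j : Fin 5, ∀ k, k ≠ j → ∃ a, g a = k := by
    by_contra hcon
    push Not at hcon
    obtain ⟨k, hk, hk'⟩ := hcon 0
    obtain ⟨l, hl, hl'⟩ := hcon k
    have h5 : Fintype.card (Set.range g) ≤ 3 := by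
      have h6 : (Set.range g).toFinset ⊆ (Finset.univ.erase k).erase l := by
        intro a ha
        rw [Set.mem_toFinset] at ha
        obtain ⟨b, rfl⟩ := ha
        rw [Finset.mem_erase, Finset.mem_erase]
        exact ⟨hl' b, hk' b, Finset.mem_univ _⟩
      have h7 := Finset.card_le_card h6
      rw [Set.toFinset_card, Finset.card_erase_of_mem, Finset.card_erase_of_mem (Finset.mem_univ _)]
        at h7
      · simpa using h7
      · rw [Finset.mem_erase]
        exact ⟨hl, Finset.mem_univ _⟩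
    have h8 : Nat.card (Set.range g) = Nat.card u := Nat.card_range_of_injective hginj
    rw [Nat.card_eq_fintype_card] at h8
    omega
  obtain ⟨i, hi⟩ : ∃ i : Fin 4, ∀ k : Fin 3, (i.succAbove k).succ ≠ j := by
    refine Fin.cases ⟨0, fun k => Fin.succ_ne_zero _⟩ (fun i => ⟨i, fun k h => ?_⟩) j
    exact Fin.succAbove_ne i k (Fin.succ_injective _ h)
  refine ⟨i, ?_⟩
  choose e he using fun k => hj _ (hi k)
  have h6 := hb.1.comp e (fun a b hab => Fin.succAbove_right_injective (p := i)
    (Fin.succ_injective _ (by rw [← he a, ← he b, hab])))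
  have h7 : (Subtype.val ∘ e) = fun k => y (i.succAbove k).succ := by
    funext k
    rw [Function.comp_apply, ← hg (e k), he]
  rwa [h7] at h6

private theorem sd7_factor {A : Type} [Field A] [Algebra ℂ A] {P : MvPolynomial (Fin 4) ℂ}
    (h0 : P ≠ 0) {ζ : Fin 4 → A} (hP : aeval ζ P = 0) :
    ∃ p, Irreducible p ∧ p ∣ P ∧ aeval ζ p = 0 := by
  obtain ⟨f, hf, hfP⟩ := WfDvdMonoid.exists_factors P h0
  have h1 : aeval ζ f.prod = 0 := by
    obtain ⟨v, hv⟩ := hfP.symm
    rw [← hv, map_mul, hP, zero_mul]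
  rw [map_multiset_prod, Multiset.prod_eq_zero_iff, Multiset.mem_map] at h1
  obtain ⟨p, hp, hp0⟩ := h1
  exact ⟨p, hf p hp, (Multiset.dvd_prod hp).trans hfP.dvd, hp0⟩

/-- piece `SD-7`: a point in four-space on two coprime hypersurfaces has transcendence degree at most two, so a field generated
by its coordinates and one more element contains no four algebraically independent elements.

Proof.  If `C(ζ, e)` has transcendence degree at least four, `ζ` contains three algebraically independent coordinates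
(all except `ζ_i`, say).  Let `p` be an irreducible factor of `P` with `p(ζ) = 0` (`P ≠ 0`: otherwise `Q` is a unit).  By `rr_dvd`
(private in `Helper64/C18/RR.lean`, copy it) `p ∣ Q`, because `Q(ζ) = 0`: contradiction. -/
theorem no_four {A : Type} [Field A] [Algebra ℂ A] {P Q : MvPolynomial (Fin 4) ℂ}
    (h : IsRelPrime P Q) {ζ : Fin 4 → A} (hP : aeval ζ P = 0) (hQ : aeval ζ Q = 0) (e : A)
    {r : Fin 4 → A} (hr : ∀ i, r i ∈ IntermediateField.adjoin ℂ (insert e (Set.range ζ))) :
    ¬ AlgebraicIndependent ℂ r := by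
  intro hind
  have hP0 : P ≠ 0 := by
    rintro rfl
    have h1 : IsUnit Q := h (dvd_zero Q) dvd_rfl
    exact (h1.map (aeval ζ)).ne_zero hQ
  obtain ⟨p, hp, hpP, hp0⟩ := sd7_factor hP0 hP
  set L := IntermediateField.adjoin ℂ (insert e (Set.range ζ)) with hL
  have he : e ∈ L := IntermediateField.subset_adjoin _ _ (Set.mem_insert _ _)
  have hζ : ∀ k, ζ k ∈ L := fun k =>
    IntermediateField.subset_adjoin _ _ (Set.mem_insert_of_mem _ ⟨k, rfl⟩)
  let y : Fin 5 → L := Fin.cons ⟨e, he⟩ fun k => ⟨ζ k, hζ k⟩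
  let x : Fin 4 → L := fun k => ⟨r k, hr k⟩
  have hx : AlgebraicIndependent ℂ x := by
    refine AlgebraicIndependent.of_comp L.val ?_
    exact hind
  have hy : IntermediateField.adjoin ℂ (Set.range y) = ⊤ := by
    rw [eq_top_iff]
    intro a _
    have h1 : L ≤ (IntermediateField.adjoin ℂ (Set.range y)).map L.val := by
      refine (IntermediateField.adjoin_le_iff (T := (IntermediateField.adjoin ℂ
        (Set.range y)).map L.val)).2 ?_
      rintro b (rfl | ⟨k, rfl⟩)
      · exact ⟨y 0, IntermediateField.subset_adjoin _ _ ⟨0, rfl⟩, rfl⟩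
      · exact ⟨y k.succ, IntermediateField.subset_adjoin _ _ ⟨k.succ, rfl⟩, rfl⟩
    obtain ⟨b, hb, hab⟩ := h1 a.2
    have h2 : b = a := Subtype.ext hab
    rwa [h2] at hb
  obtain ⟨i, hi⟩ := sd7_sel x y hx hy
  have hi' : AlgebraicIndependent ℂ (fun k => ζ (i.succAbove k)) := by
    have h1 := hi.map' (f := L.val) L.val.injective
    exact h1
  have hpQ : p ∣ Q := sd7_dvd hp hp0 hi' hQ
  exact hp.not_isUnit (h hpP hpQ)

end Pool.Agent.Helper69.SD
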