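import Pool.Agent.Helper69.SD.K0
import Pool.Agent.Helper69.SD.Cop
import Pool.Agent.Helper69.SD.Four
import Pool.Agent.Helper64.C18.SM

/-! # SD: good points of the fibre (last step, common to all parametrizations)

The proofs are by helper80. -/

set_option autoImplicit false
set_option linter.unusedVariables false
set_option linter.unusedSectionVars false

namespace Pool.Agent.Helper69.SD

open MvPolynomial Module Matrix QuadraticMap Pool.Agent.Helper16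

variable {D : Dat}

/-- the field `ℂ(T₁, T₂, S, P)` -/
abbrev L4 : Type := FractionRing R4

/-- `T₁, T₂` in `L4` -/
noncomputable def tL : Fin 2 → L4 := fun i => algebraMap R4 L4 (t4 i)

/-- a point of the fibre with coordinates in `L4` which generates `L4` over `ℂ(T₁, T₂)` -/
structure GoodPt (D : Dat) (ξ : Fin 5 → L4) : Prop where
  H : ∀ i, D.H tL i ξ = 0
  w : ξ 4 ≠ 0
  top : ∀ E : IntermediateField ℂ L4, (∀ i, tL i ∈ E) → ∀ τ : L4, τ ≠ 0 →
    (∀ j, τ * ξ j ∈ E) → E = ⊤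

theorem tL0_ne : tL 0 ≠ 0 := by
  intro h
  exact X_ne_zero (R := ℂ) (0 : Fin 4) ((FaithfulSMul.algebraMap_injective R4 L4)
    (h.trans (map_zero _).symm))

private theorem lin_h80 (c : ℂ) (k : Fin 6) :
    (cc (MvPolynomial (Fin 6) ℂ) c * X k).IsHomogeneous 1 := by
  have h := (isHomogeneous_C (Fin 6) c).mul (isHomogeneous_X ℂ k)
  rw [zero_add] at h
  exact h

private theorem cx_h80 (i j : Fin 3) :
    (D.cx (MvPolynomial (Fin 6) ℂ) i j (v5 X)).IsHomogeneous 1 := by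
  rw [cx_apply]
  exact ((lin_h80 _ _).add (lin_h80 _ _)).add (lin_h80 _ _)

private theorem cy_h80 (i j : Fin 3) :
    (D.cy (MvPolynomial (Fin 6) ℂ) i j (v5 X)).IsHomogeneous 1 := by
  rw [cy_apply]
  exact ((lin_h80 _ _).add (lin_h80 _ _)).add (lin_h80 _ _)

private theorem mx_h80 (i j : Fin 3) :
    (D.mx (X : Fin 6 → MvPolynomial (Fin 6) ℂ) i j).IsHomogeneous 1 := by
  rw [mx_apply]
  refine (cx_h80 i j).add ?_
  split_ifs
  · exact isHomogeneous_X ℂ _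
  · exact isHomogeneous_zero _ _ _

private theorem my_h80 (i j : Fin 3) :
    (D.my (X : Fin 6 → MvPolynomial (Fin 6) ℂ) i j).IsHomogeneous 1 := by
  rw [my_apply]
  refine (cy_h80 i j).add ?_
  split_ifs
  · exact isHomogeneous_X ℂ _
  · exact isHomogeneous_zero _ _ _

private theorem det_h80 {M : Matrix (Fin 3) (Fin 3) (MvPolynomial (Fin 6) ℂ)}
    (h : ∀ i j, (M i j).IsHomogeneous 1) : M.det.IsHomogeneous 3 := by
  rw [det_fin_three]
  have h3 : ∀ i j k l m n, (M i j * M k l * M m n).IsHomogeneous 3 := fun i j k l m n =>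
    ((h i j).mul (h k l)).mul (h m n)
  exact (((((h3 _ _ _ _ _ _).sub (h3 _ _ _ _ _ _)).sub (h3 _ _ _ _ _ _)).add
    (h3 _ _ _ _ _ _)).add (h3 _ _ _ _ _ _)).sub (h3 _ _ _ _ _ _)

private theorem Q_h80 (i : Fin 3) :
    (D.Q (X : Fin 6 → MvPolynomial (Fin 6) ℂ) i).IsHomogeneous 2 := by
  rw [Q_apply, Bq_apply]
  refine (((((isHomogeneous_X ℂ _).mul (cx_h80 _ _)).add
    ((isHomogeneous_X ℂ _).mul (cx_h80 _ _))).add
    ((isHomogeneous_X ℂ _).mul (cx_h80 _ _)))).add ?_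
  split_ifs
  · exact (isHomogeneous_X ℂ _).mul (isHomogeneous_X ℂ _)
  · exact isHomogeneous_zero _ _ _

/-- the cubic form is homogeneous of degree three -/
theorem F_hom_h80 (D : Dat) : D.F.IsHomogeneous 3 := by
  unfold Dat.F Dat.cubic
  refine IsHomogeneous.add (IsHomogeneous.add ?_ ?_) (IsHomogeneous.sum _ _ _ fun i _ => ?_)
  · have h := (isHomogeneous_C (Fin 6) D.a).mul (det_h80 (mx_h80 (D := D)))
    rwa [zero_add] at h
  · have h := (isHomogeneous_C (Fin 6) D.b).mul (det_h80 (my_h80 (D := D)))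
    rwa [zero_add] at h
  · exact (IsHomogeneous.sum _ _ _ fun j _ => lin_h80 _ _).mul (Q_h80 i)

/-- `Q_i(Ξ) = 0`, `C_i(Ξ) = 0`, `Ξ₄ ≠ 0` is impossible on a smooth fourfold -/
private theorem C_ne_h80 (hs : Smooth D.F) {Ξ : Fin 6 → L4} (h4 : Ξ 4 = 1) (hQ : ∀ i, D.Q Ξ i = 0) :
    ∃ i, D.C Ξ i ≠ 0 := by
  by_contra hcon
  push Not at hcon
  have hΞ0 : Ξ ≠ 0 := fun h => by
    have h2 := congrFun h 4
    rw [h4] at h2
    exact one_ne_zero h2
  obtain ⟨i, hi⟩ := Pool.Agent.Helper16.C18.H.smooth_ext (F_hom_h80 D) hs hΞ0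
  apply hi
  have hX : (aeval Ξ : MvPolynomial (Fin 6) ℂ →ₐ[ℂ] L4) ∘ X = Ξ := by
    funext k
    simp
  have haQ : ∀ k, aeval Ξ (D.Q (X : Fin 6 → MvPolynomial (Fin 6) ℂ) k) = 0 := fun k => by
    rw [map_Q, hX]
    exact hQ k
  have haC : ∀ k, aeval Ξ (D.C (X : Fin 6 → MvPolynomial (Fin 6) ℂ) k) = 0 := fun k => by
    rw [map_C, hX]
    exact hcon k
  have hF0 : aeval Ξ (D.cubic (X : Fin 6 → MvPolynomial (Fin 6) ℂ)) = 0 := by
    have h2 := congrArg (aeval Ξ : MvPolynomial (Fin 6) ℂ →ₐ[ℂ] L4) (w_mul_cubic D (X : Fin 6 → MvPolynomial (Fin 6) ℂ))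
    rw [map_mul, map_sum, aeval_X, h4, one_mul] at h2
    rw [h2]
    refine Finset.sum_eq_zero fun k _ => ?_
    rw [map_mul, haQ, zero_mul]
  have h2 := congrArg (fun q => aeval Ξ (pderiv i q))
    (w_mul_cubic D (X : Fin 6 → MvPolynomial (Fin 6) ℂ))
  simp only [pderiv_mul, map_add, map_mul, map_sum, haQ, haC, hF0, aeval_X, h4, mul_zero, zero_mul,
    add_zero, zero_add, one_mul, Finset.sum_const_zero] at h2
  exact h2

/-- piece `SD-8` (b): a good point is not in the base locus.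

Proof.  Suppose `B₁(ξ) = 0`; `H₁(ξ) = 0`, so `B₂(ξ) = 0` (`H1_apply`, `T₁ ≠ 0`).  `ζ = ξ / ξ₄` (four coordinates), `bq 1 (ζ) = bq 2 (ζ) = 0`.
The point `Ξ = (ξ, z)`, `z = -B₀(ξ) / ξ₄`: `Q_i(Ξ) = 0` for all `i`.  `H2_eq` and `H₂(ξ) = 0`: `∑ T_i C_i(Ξ) = 0`.  Not all `C_i(Ξ)` are zero:
otherwise all first derivatives of `F` at `Ξ` are zero (`w F = ∑ Q_i C_i`, derivative of a product), contradiction to
`smooth_ext`.  `c_i = C_i(Ξ) / ξ₄²` are in `ℂ(ζ)`; so one of `T₁`, `T₂` is in `ℂ(ζ, e)`, `e` the other one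
(`c₀ + T₁ c₁ + T₂ c₂ = 0`; if `c₂ ≠ 0`: `T₂ = -(c₀ + T₁c₁)/c₂`, `e = T₁`; if `c₂ = 0`, then `c₁ ≠ 0`, `T₁ = -c₀/c₁`, `e = T₂`), so `ℂ(ζ, e)` contains
`T₁, T₂` and `ζ`, so it is `L4` by `top` with `τ = 1 / ξ₄`, against `no_four` with `r i = X i`. -/
theorem GoodPt.B1_ne {ξ : Fin 5 → L4} (h : GoodPt D ξ) (hs : Smooth D.F)
    (hn : ∃ c : Fin 2 → ℂ, D.dt c ≠ 0) : D.Bq L4 1 ξ ≠ 0 := by
  intro hB1
  obtain ⟨φ, hφ⟩ : ∃ φ : R4 →ₐ[ℂ] L4, φ = IsScalarTower.toAlgHom ℂ R4 L4 := ⟨_, rfl⟩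
  have hinj : Function.Injective φ := by
    rw [hφ]
    exact IsFractionRing.injective R4 L4
  have hX1 : D.H2 tL ξ = 0 := h.H 1
  have hB2 : D.Bq L4 2 ξ = 0 := by
    have h2 : D.H1 tL ξ = 0 := h.H 0
    rw [H1_apply, hB1, mul_zero, sub_zero] at h2
    exact (mul_eq_zero.1 h2).resolve_left tL0_ne
  have hw5 := h.w
  obtain ⟨ζ, hζ⟩ : ∃ ζ : Fin 4 → L4, ζ = fun j => (ξ 4)⁻¹ * ξ j.castSucc := ⟨_, rfl⟩
  obtain ⟨g, hg⟩ : ∃ g : Fin 5 → L4, g = (ξ 4)⁻¹ • ξ := ⟨_, rfl⟩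
  have hgζ : g = ![ζ 0, ζ 1, ζ 2, ζ 3, 1] := by
    rw [hg, hζ]
    funext i
    fin_cases i
    · rfl
    · rfl
    · rfl
    · rfl
    · exact inv_mul_cancel₀ hw5
  have hBg : ∀ i, D.Bq L4 i ξ = 0 → D.Bq L4 i g = 0 := by
    intro i hi
    rw [hg, QuadraticMap.map_smul, hi, smul_zero]
  have hgH2 : D.H2 tL g = 0 := by
    rw [hg, QuadraticMap.map_smul, hX1, smul_zero]
  obtain ⟨Ξ, hΞ⟩ : ∃ Ξ : Fin 6 → L4, Ξ = ![ζ 0, ζ 1, ζ 2, ζ 3, 1, -D.Bq L4 0 g] := ⟨_, rfl⟩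
  have hv5 : v5 Ξ = g := by
    rw [hΞ, hgζ]
    funext i
    fin_cases i <;> rfl
  have hΞ4 : Ξ 4 = 1 := by
    rw [hΞ]
    rfl
  have hΞ5 : Ξ 5 = -D.Bq L4 0 g := by
    rw [hΞ]
    rfl
  have hQ : ∀ i, D.Q Ξ i = 0 := by
    intro i
    rw [Q_apply, hv5, hΞ4, hΞ5]
    fin_cases i
    · simp
    · simp [hBg 1 hB1]
    · simp [hBg 2 hB2]
  have hC : ∑ i, tv tL i * D.C Ξ i = 0 := by
    have h2 := H2_eq D tL Ξ
    rw [hv5, hgH2, hQ, hQ, mul_zero, sub_zero, mul_zero, sub_zero] at h2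
    exact (mul_eq_zero.1 h2.symm).resolve_left tL0_ne
  -- the coordinates of `Ξ` and the `C_i` are in the field of `ζ`
  have hmem : ∀ E : IntermediateField ℂ L4, (∀ j, ζ j ∈ E) → ∀ i, D.C Ξ i ∈ E := by
    intro E hE i
    obtain ⟨ζ', hζ'⟩ : ∃ ζ' : Fin 4 → E, ∀ j, (ζ' j : L4) = ζ j := ⟨fun j => ⟨ζ j, hE j⟩, fun _ => rfl⟩
    obtain ⟨g', hg'⟩ : ∃ g' : Fin 5 → E, g' = ![ζ' 0, ζ' 1, ζ' 2, ζ' 3, 1] := ⟨_, rfl⟩
    have h2 : E.val ∘ g' = g := by
      rw [hg', hgζ]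
      funext k
      fin_cases k
      · exact hζ' 0
      · exact hζ' 1
      · exact hζ' 2
      · exact hζ' 3
      · rfl
    have h3 : E.val ∘ ![ζ' 0, ζ' 1, ζ' 2, ζ' 3, 1, -D.Bq E 0 g'] = Ξ := by
      rw [hΞ]
      funext k
      fin_cases k
      · exact hζ' 0
      · exact hζ' 1
      · exact hζ' 2
      · exact hζ' 3
      · rfl
      · change E.val (-D.Bq E 0 g') = -D.Bq L4 0 g
        rw [map_neg, map_Bq, h2]
    rw [← h3, ← map_C E.val]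
    exact SetLike.coe_mem _
  have hgE : ∀ E : IntermediateField ℂ L4, (∀ j, ζ j ∈ E) → ∀ i, g i ∈ E := by
    intro E hE i
    rw [hgζ]
    fin_cases i
    · exact hE 0
    · exact hE 1
    · exact hE 2
    · exact hE 3
    · exact E.one_mem
  have hbq : ∀ i, D.Bq L4 i ξ = 0 → aeval ζ (D.bq i) = 0 := by
    intro i hi
    have h2 : (aeval ζ : R4 →ₐ[ℂ] L4) ∘ ![X 0, X 1, X 2, X 3, 1] = g := by
      rw [hgζ]
      funext k
      fin_cases k <;> simp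
    rw [Dat.bq, map_Bq, h2]
    exact hBg i hi
  have hfin : ∀ e : L4, (∀ E : IntermediateField ℂ L4, e ∈ E → (∀ j, ζ j ∈ E) →
      ∀ i, tL i ∈ E) → False := by
    intro e he
    obtain ⟨E, hE⟩ : ∃ E : IntermediateField ℂ L4,
      E = IntermediateField.adjoin ℂ (insert e (Set.range ζ)) := ⟨_, rfl⟩
    have heE : e ∈ E := by
      rw [hE]
      exact IntermediateField.subset_adjoin ℂ _ (Set.mem_insert _ _)
    have hζE : ∀ j, ζ j ∈ E := fun j => by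
      rw [hE]
      exact IntermediateField.subset_adjoin ℂ _ (Set.mem_insert_of_mem _ ⟨j, rfl⟩)
    have htop : E = ⊤ := by
      refine h.top E (fun i => ?_) _ (inv_ne_zero hw5) fun j => ?_
      · exact he E heE hζE i
      · have h2 := hgE E hζE j
        rw [hg] at h2
        exact h2
    refine no_four (bq_coprime hs hn) (hbq 1 hB1) (hbq 2 hB2) e (r := φ ∘ X) (fun i => ?_)
      ((MvPolynomial.algebraicIndependent_X (Fin 4) ℂ).map' hinj)
    rw [← hE, htop]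
    trivial
  -- one of `T₁`, `T₂` is a function of the other and `ζ`
  have hsum : D.C Ξ 0 + tL 0 * D.C Ξ 1 + tL 1 * D.C Ξ 2 = 0 := by
    have h2 := hC
    rw [Fin.sum_univ_three] at h2
    simpa [tv] using h2
  by_cases hC2 : D.C Ξ 2 = 0
  · have hC1 : D.C Ξ 1 ≠ 0 := by
      intro hC1
      obtain ⟨i, hi⟩ := C_ne_h80 hs hΞ4 hQ
      rw [hC1, hC2, mul_zero, mul_zero, add_zero, add_zero] at hsum
      apply hi
      fin_cases i
      · exact hsum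
      · exact hC1
      · exact hC2
    refine hfin (tL 1) fun E he hE i => ?_
    fin_cases i
    · have h2 : tL 0 = -D.C Ξ 0 / D.C Ξ 1 := by
        rw [eq_div_iff hC1]
        rw [hC2] at hsum
        linear_combination hsum
      change tL 0 ∈ E
      rw [h2]
      exact E.div_mem (E.neg_mem (hmem E hE 0)) (hmem E hE 1)
    · exact he
  · refine hfin (tL 0) fun E he hE i => ?_
    fin_cases i
    · exact he
    · have h2 : tL 1 = -(D.C Ξ 0 + tL 0 * D.C Ξ 1) / D.C Ξ 2 := by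
        rw [eq_div_iff hC2]
        linear_combination hsum
      change tL 1 ∈ E
      rw [h2]
      exact E.div_mem (E.neg_mem (E.add_mem (hmem E hE 0) (E.mul_mem he (hmem E hE 1))))
        (hmem E hE 2)

end Pool.Agent.Helper69.SD
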