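import Pool.Agent.Helper69.SD.Good

/-! # SD: the fourth point is a good point (piece SD-8 (a), helper80) -/

set_option autoImplicit false
set_option linter.unusedVariables false
set_option linter.unusedSectionVars false

namespace Pool.Agent.Helper69.SD

open MvPolynomial Module Matrix QuadraticMap Pool.Agent.Helper16

variable {D : Dat} {s : Fin 6 → P2}

/-- the point of the fibre -/
noncomputable def Dat.pt5 (D : Dat) (s : Fin 6 → P2) : Fin 5 → R4 := D.xi5 t4 (s4 s) D.vg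

/-! ### helper lemmas (helper80) -/

private theorem top_h80 (E : IntermediateField ℂ L4) (h : ∀ i, algebraMap R4 L4 (X i) ∈ E) :
    E = ⊤ := by
  have h1 : ∀ q : R4, algebraMap R4 L4 q ∈ E := by
    intro q
    induction q using MvPolynomial.induction_on with
    | C c =>
      have h2 : algebraMap R4 L4 (C c) = algebraMap ℂ L4 c := by
        rw [← MvPolynomial.algebraMap_eq, ← IsScalarTower.algebraMap_apply]
      rw [h2]
      exact E.algebraMap_mem c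
    | add p q hp hq =>
      rw [map_add]
      exact E.add_mem hp hq
    | mul_X p i hp =>
      rw [map_mul]
      exact E.mul_mem hp (h i)
  rw [eq_top_iff]
  intro x _
  obtain ⟨p, q, hq, rfl⟩ := IsFractionRing.div_surjective (A := R4) x
  exact E.div_mem (h1 p) (h1 q)

private theorem dt4_ne_h80 (hn : ∃ c : Fin 2 → ℂ, D.dt c ≠ 0) : D.dt t4 ≠ 0 := by
  obtain ⟨c, hc⟩ := hn
  intro h
  apply hc
  have h1 := map_dt (aeval ![c 0, c 1, 0, 0] : R4 →ₐ[ℂ] ℂ) D t4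
  rw [h, map_zero] at h1
  have h2 : (aeval ![c 0, c 1, 0, 0] : R4 →ₐ[ℂ] ℂ) ∘ t4 = c := by
    funext i
    fin_cases i <;> simp [t4]
  rw [h2] at h1
  exact h1.symm

private theorem inc_inj_h80 : Function.Injective inc := by
  have h : inc = rename (Fin.castLE (by norm_num : 2 ≤ 4)) := by
    apply MvPolynomial.algHom_ext
    intro i
    fin_cases i <;> simp [inc, t4]
  rw [h]
  exact rename_injective _ (Fin.castLE_injective _)

private theorem inc_t_h80 : inc ∘ (X : Fin 2 → P2) = t4 := by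
  funext i
  simp [inc]

private theorem pt5_cast_h80 (j : Fin 4) : D.pt5 s j.castSucc =
    D.sig t4 (s4 s) D.vg * s4 s j.castSucc + D.k0 t4 (s4 s) D.vg *
      (D.k1 t4 (s4 s) D.vg * D.vg j + D.k2 t4 (s4 s) D.vg * D.Th t4 D.vg j) := by
  unfold Dat.pt5 Dat.xi5
  rw [emb_apply]
  fin_cases j <;> rfl

private theorem pt5_4_h80 : D.pt5 s 4 = D.sig t4 (s4 s) D.vg * inc (s 4) := by
  unfold Dat.pt5 Dat.xi5
  rw [emb_apply]
  have h : (D.sig t4 (s4 s) D.vg • s4 s + D.k0 t4 (s4 s) D.vg •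
      ![(D.k1 t4 (s4 s) D.vg • D.vg + D.k2 t4 (s4 s) D.vg • D.Th t4 D.vg) 0,
        (D.k1 t4 (s4 s) D.vg • D.vg + D.k2 t4 (s4 s) D.vg • D.Th t4 D.vg) 1,
        (D.k1 t4 (s4 s) D.vg • D.vg + D.k2 t4 (s4 s) D.vg • D.Th t4 D.vg) 2,
        (D.k1 t4 (s4 s) D.vg • D.vg + D.k2 t4 (s4 s) D.vg • D.Th t4 D.vg) 3, 0]) 4 =
      D.sig t4 (s4 s) D.vg * inc (s 4) + D.k0 t4 (s4 s) D.vg * 0 := rfl
  rw [h, mul_zero, add_zero]

/-- piece `SD-8` (a): every subfield of `L4` which contains `T₁`, `T₂` and, for some `τ ≠ 0`, all `τ pt5_j`, is everything.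
`τ σ s₄ = τ pt5₄` (`xi5`, `emb` has `w = 0`), so `τ σ` is in `E`, `τ (pt5 - σ s) = α v + β Θ v` (first four coordinates) with
`α = τ k0 k1`, `β = τ k0 k2`, `v = vh S P`; `recover` gives `β, α` in `E` (`a ≠ 0`, `dt ≠ 0`), then a linear system for `S, P` with determinant
`u₀ (α + κβ) - 4ab dt β² = α² - δβ² = τ² k0² sig ≠ 0`. -/
theorem eq_top (ha : D.a ≠ 0) (hn : ∃ c : Fin 2 → ℂ, D.dt c ≠ 0) (hw : s 4 ≠ 0)
    (h0 : D.k0 t4 (s4 s) D.vg ≠ 0) (h1 : D.sig t4 (s4 s) D.vg ≠ 0)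
    (E : IntermediateField ℂ L4) (hT : ∀ i, algebraMap R4 L4 (t4 i) ∈ E) {τ : L4} (hτ : τ ≠ 0)
    (hE : ∀ j, τ * algebraMap R4 L4 (D.pt5 s j) ∈ E) : E = ⊤ := by
  obtain ⟨φ, hφ⟩ : ∃ φ : R4 →ₐ[ℂ] L4, φ = IsScalarTower.toAlgHom ℂ R4 L4 := ⟨_, rfl⟩
  have hφa : ∀ x, algebraMap R4 L4 x = φ x := fun x => by rw [hφ]; rfl
  have hinj : Function.Injective φ := by
    rw [hφ]
    exact IsFractionRing.injective R4 L4
  have hne : ∀ x, x ≠ 0 → φ x ≠ 0 := fun x hx h => hx (hinj (by rw [h, map_zero]))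
  simp only [hφa] at hT hE
  have hinc : ∀ q : P2, φ (inc q) ∈ E := by
    intro q
    induction q using MvPolynomial.induction_on with
    | C c =>
      have h2 : φ (inc (C c)) = algebraMap ℂ L4 c := by
        rw [← MvPolynomial.algebraMap_eq, AlgHom.commutes, AlgHom.commutes]
      rw [h2]
      exact E.algebraMap_mem c
    | add p q hp hq =>
      rw [map_add, map_add]
      exact E.add_mem hp hq
    | mul_X p i hp =>
      rw [map_mul, map_mul]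
      refine E.mul_mem hp ?_
      have : inc (X i) = t4 i := congrFun inc_t_h80 i
      rw [this]
      exact hT i
  have hcc : ∀ u : ℂ, cc L4 u ∈ E := fun u => E.algebraMap_mem u
  obtain ⟨t', ht'⟩ : ∃ t' : Fin 2 → E, E.val ∘ t' = φ ∘ t4 := ⟨fun i => ⟨φ (t4 i), hT i⟩, rfl⟩
  have hn' : ∀ i j, D.n (φ ∘ t4) i j ∈ E := by
    intro i j
    rw [← ht', ← map_n E.val]
    exact SetLike.coe_mem _
  have hk' : D.kap (φ ∘ t4) ∈ E := by
    rw [← ht', ← map_kap E.val]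
    exact SetLike.coe_mem _
  have hd' : D.dt (φ ∘ t4) ∈ E := by
    rw [← ht', ← map_dt E.val]
    exact SetLike.coe_mem _
  have hd0 : D.dt (φ ∘ t4) ≠ 0 := by
    rw [← map_dt φ]
    exact hne _ (dt4_ne_h80 hn)
  have ha0 : cc L4 D.a ≠ 0 := by
    unfold cc
    rw [Ne, map_eq_zero_iff _ (algebraMap ℂ L4).injective]
    exact ha
  have h2E : (2 : L4) ∈ E := by exact_mod_cast natCast_mem E 2
  have hw' : φ (inc (s 4)) ≠ 0 := hne _ fun h => hw (inc_inj_h80 (by rw [h, map_zero]))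
  -- the factor of the section
  have hσ : τ * φ (D.sig t4 (s4 s) D.vg) ∈ E := by
    have h2 := hE 4
    rw [pt5_4_h80, map_mul, ← mul_assoc] at h2
    have h3 := E.div_mem h2 (hinc (s 4))
    rwa [mul_div_cancel_right₀ _ hw'] at h3
  obtain ⟨α, hα⟩ : ∃ α : L4, α = τ * (φ (D.k0 t4 (s4 s) D.vg) * φ (D.k1 t4 (s4 s) D.vg)) :=
    ⟨_, rfl⟩
  obtain ⟨β, hβ⟩ : ∃ β : L4, β = τ * (φ (D.k0 t4 (s4 s) D.vg) * φ (D.k2 t4 (s4 s) D.vg)) :=
    ⟨_, rfl⟩
  obtain ⟨u, hu⟩ : ∃ u : Fin 4 → L4, u = α • (φ ∘ D.vg) + β • (φ ∘ D.Th t4 D.vg) := ⟨_, rfl⟩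
  have huE : ∀ j, u j ∈ E := by
    intro j
    have h2 : u j = τ * φ (D.pt5 s j.castSucc) -
        τ * φ (D.sig t4 (s4 s) D.vg) * φ (s4 s j.castSucc) := by
      rw [pt5_cast_h80, hu, hα, hβ]
      simp only [Pi.add_apply, Pi.smul_apply, Function.comp_apply, smul_eq_mul, map_add, map_mul]
      ring
    rw [h2]
    exact E.sub_mem (hE _) (E.mul_mem hσ (hinc _))
  have hvg : φ ∘ D.vg = D.vh (φ ∘ t4) (φ (X 2)) (φ (X 3)) := map_vh φ D t4 (X 2) (X 3)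
  rw [map_Th φ, hvg] at hu
  obtain ⟨e1, e2, e3, e4⟩ := recover D (φ ∘ t4) (φ (X 2)) (φ (X 3)) α β u hu
  have hβE : β ∈ E := by
    have h3 : β = (D.n (φ ∘ t4) 1 0 * u 2 + D.n (φ ∘ t4) 1 1 * u 3) /
        (-(2 * cc L4 D.a * D.dt (φ ∘ t4))) := by
      rw [e1]
      field_simp
    rw [h3]
    exact E.div_mem (E.add_mem (E.mul_mem (hn' _ _) (huE _)) (E.mul_mem (hn' _ _) (huE _)))
      (E.neg_mem (E.mul_mem (E.mul_mem h2E (hcc _)) hd'))
  have hαE : α ∈ E := by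
    have h3 : α = u 0 + D.kap (φ ∘ t4) * β := by rw [e2]; ring
    rw [h3]
    exact E.add_mem (huE _) (E.mul_mem hk' hβE)
  obtain ⟨m, hm⟩ : ∃ m : L4, m = (D.n (φ ∘ t4) 0 0 * u 2 + D.n (φ ∘ t4) 0 1 * u 3) /
      D.dt (φ ∘ t4) := ⟨_, rfl⟩
  have hmE : m ∈ E := by
    rw [hm]
    exact E.div_mem (E.add_mem (E.mul_mem (hn' _ _) (huE _)) (E.mul_mem (hn' _ _) (huE _))) hd'
  have e4' : m = φ (X 3) * (α + D.kap (φ ∘ t4) * β) + 2 * cc L4 D.a * β * φ (X 2) := by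
    rw [hm, e4]
    field_simp
  -- the determinant
  obtain ⟨Δ, hΔ⟩ : ∃ Δ : L4, Δ = α ^ 2 - D.del (φ ∘ t4) * β ^ 2 := ⟨_, rfl⟩
  have hΔ0 : Δ ≠ 0 := by
    have h3 : Δ = τ ^ 2 * φ (D.k0 t4 (s4 s) D.vg) ^ 2 * φ (D.sig t4 (s4 s) D.vg) := by
      rw [hΔ, hα, hβ, ← map_del φ, Dat.sig]
      simp only [map_sub, map_mul, map_pow]
      ring
    rw [h3]
    exact mul_ne_zero (mul_ne_zero (pow_ne_zero _ hτ) (pow_ne_zero _ (hne _ h0))) (hne _ h1)
  have hΔ' : Δ = u 0 * (α + D.kap (φ ∘ t4) * β) -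
      2 * cc L4 D.b * D.dt (φ ∘ t4) * β * (2 * cc L4 D.a * β) := by
    rw [hΔ, e2, Dat.del]
    ring
  have hΔE : Δ ∈ E := by
    rw [hΔ']
    exact E.sub_mem (E.mul_mem (huE _) (E.add_mem hαE (E.mul_mem hk' hβE)))
      (E.mul_mem (E.mul_mem (E.mul_mem (E.mul_mem h2E (hcc _)) hd') hβE)
        (E.mul_mem (E.mul_mem h2E (hcc _)) hβE))
  have hSE : φ (X 2) ∈ E := by
    have h3 : φ (X 2) = (u 1 * (α + D.kap (φ ∘ t4) * β) -
        2 * cc L4 D.b * D.dt (φ ∘ t4) * β * m) / Δ := by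
      rw [eq_div_iff hΔ0, hΔ', e4', e3]
      ring
    rw [h3]
    exact E.div_mem (E.sub_mem (E.mul_mem (huE _) (E.add_mem hαE (E.mul_mem hk' hβE)))
      (E.mul_mem (E.mul_mem (E.mul_mem (E.mul_mem h2E (hcc _)) hd') hβE) hmE)) hΔE
  have hPE : φ (X 3) ∈ E := by
    have h3 : φ (X 3) = (u 0 * m - 2 * cc L4 D.a * β * u 1) / Δ := by
      rw [eq_div_iff hΔ0, hΔ', e4', e3]
      ring
    rw [h3]
    exact E.div_mem (E.sub_mem (E.mul_mem (huE _) hmE)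
      (E.mul_mem (E.mul_mem (E.mul_mem h2E (hcc _)) hβE) (huE _))) hΔE
  refine top_h80 E fun i => ?_
  rw [hφa]
  fin_cases i
  · exact hT 0
  · exact hT 1
  · exact hSE
  · exact hPE

theorem good_pt5 (ha : D.a ≠ 0) (hn : ∃ c : Fin 2 → ℂ, D.dt c ≠ 0)
    (hH : ∀ i, D.H (X : Fin 2 → P2) i (v5 s) = 0) (hw : s 4 ≠ 0)
    (h0 : D.k0 t4 (s4 s) D.vg ≠ 0) (h1 : D.sig t4 (s4 s) D.vg ≠ 0) :
    GoodPt D (fun j => algebraMap R4 L4 (D.pt5 s j)) := by
  have hH4 : ∀ i, D.H t4 i (s4 s) = 0 := by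
    intro i
    have h2 := map_H inc D X i (v5 s)
    rw [hH, map_zero, inc_t_h80] at h2
    exact h2.symm
  have hX : ∀ i, D.H t4 i (D.pt5 s) = 0 := fun i => H_xi5 D t4 (s4 s) D.vg i (hH4 i)
  refine ⟨fun i => ?_, ?_, fun E hT τ hτ hE => eq_top ha hn hw h0 h1 E hT hτ hE⟩
  · have h2 := map_H (IsScalarTower.toAlgHom ℂ R4 L4) D t4 i (D.pt5 s)
    rw [hX, map_zero] at h2
    exact h2.symm
  · rw [pt5_4_h80]
    intro h
    have h2 := (FaithfulSMul.algebraMap_injective R4 L4) (h.trans (map_zero _).symm)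
    rcases mul_eq_zero.1 h2 with h3 | h3
    · exact h1 h3
    · exact hw (inc_inj_h80 (by rw [h3, map_zero]))

end Pool.Agent.Helper69.SD
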