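import Pool.Agent.Helper69.SD.Alg

/-! # SD: the parametrization by fourth points -/

set_option autoImplicit false
set_option linter.unusedVariables false
set_option linter.unusedSectionVars false

namespace Pool.Agent.Helper69.SD

open MvPolynomial Module Matrix QuadraticMap

variable {R : Type} [CommRing R] [Algebra ℂ R]

/-- the two quadrics of the fibre -/
noncomputable def Dat.H (D : Dat) (t : Fin 2 → R) : Fin 2 → QuadraticForm R (Fin 5 → R) :=
  ![D.H1 t, D.H2 t]

/-- `f i v = B i (s, v)` for `v` with `w = 0` -/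
noncomputable def Dat.f (D : Dat) (t : Fin 2 → R) (s : Fin 5 → R) (i : Fin 2) (v : Fin 4 → R) : R :=
  polar (D.H t i) s (emb v)

noncomputable def Dat.h (D : Dat) (t : Fin 2 → R) (i : Fin 2) (v : Fin 4 → R) : R :=
  D.H t i (emb v)

/-- the cross product of the vectors `(h i, f i, f i ∘ Θ)`, `i = 0, 1` -/
noncomputable def Dat.k0 (D : Dat) (t : Fin 2 → R) (s : Fin 5 → R) (v : Fin 4 → R) : R :=
  D.f t s 0 v * D.f t s 1 (D.Th t v) - D.f t s 0 (D.Th t v) * D.f t s 1 v

noncomputable def Dat.k1 (D : Dat) (t : Fin 2 → R) (s : Fin 5 → R) (v : Fin 4 → R) : R :=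
  D.f t s 0 (D.Th t v) * D.h t 1 v - D.h t 0 v * D.f t s 1 (D.Th t v)

noncomputable def Dat.k2 (D : Dat) (t : Fin 2 → R) (s : Fin 5 → R) (v : Fin 4 → R) : R :=
  D.h t 0 v * D.f t s 1 v - D.f t s 0 v * D.h t 1 v

noncomputable def Dat.sig (D : Dat) (t : Fin 2 → R) (s : Fin 5 → R) (v : Fin 4 → R) : R :=
  D.k1 t s v ^ 2 - D.del t * D.k2 t s v ^ 2

/-- the fourth point of the plane spanned by `s`, `v`, `Θ v` -/
noncomputable def Dat.xi5 (D : Dat) (t : Fin 2 → R) (s : Fin 5 → R) (v : Fin 4 → R) : Fin 5 → R :=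
  D.sig t s v • s + D.k0 t s v • emb (D.k1 t s v • v + D.k2 t s v • D.Th t v)

/-- the point of the fourfold over a point of the fibre -/
noncomputable def Dat.lift (D : Dat) (t : Fin 2 → R) (v : Fin 5 → R) : Fin 6 → R :=
  ![t 0 * v 4 * v 0, t 0 * v 4 * v 1, t 0 * v 4 * v 2, t 0 * v 4 * v 3, t 0 * v 4 * v 4,
    D.Bq R 1 v - t 0 * D.Bq R 0 v]

/-! ### SD-2: identities -/

theorem f_add (D : Dat) (t : Fin 2 → R) (s : Fin 5 → R) (i : Fin 2) (u v : Fin 4 → R) :
    D.f t s i (u + v) = D.f t s i u + D.f t s i v := by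
  rw [Dat.f, map_add, polar_add_right]
  rfl

theorem f_smul (D : Dat) (t : Fin 2 → R) (s : Fin 5 → R) (i : Fin 2) (c : R) (v : Fin 4 → R) :
    D.f t s i (c • v) = c * D.f t s i v := by
  rw [Dat.f, map_smul, polar_smul_right]
  rfl

theorem skewH (D : Dat) (t : Fin 2 → R) (i : Fin 2) (v v' : Fin 4 → R) :
    polar (D.H t i) (emb (D.Th t v)) (emb v') = -polar (D.H t i) (emb v) (emb (D.Th t v')) := by
  fin_cases i
  · exact skew1 D t v v'
  · exact skew2 D t v v'

/-- `k0` is quadratic -/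
theorem k0_comb (D : Dat) (t : Fin 2 → R) (s : Fin 5 → R) (v : Fin 4 → R) (α β : R) :
    D.k0 t s (α • v + β • D.Th t v) = (α ^ 2 - D.del t * β ^ 2) * D.k0 t s v := by
  have hT : D.Th t (α • v + β • D.Th t v) = α • D.Th t v + (β * D.del t) • v := by
    rw [map_add, map_smul, map_smul, Th_Th, smul_smul]
  rw [Dat.k0, hT, Dat.k0]
  simp only [f_add, f_smul]
  ring

/-- the fourth point lies on the two quadrics -/
theorem H_xi5 [IsDomain R] [CharZero R] (D : Dat) (t : Fin 2 → R) (s : Fin 5 → R) (v : Fin 4 → R) (i : Fin 2)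
    (hs : D.H t i s = 0) : D.H t i (D.xi5 t s v) = 0 := by
  have h1 : polar (D.H t i) (emb v) (emb (D.Th t v)) = 0 := by
    have h2 := skewH D t i v v
    rw [polar_comm (D.H t i) (emb (D.Th t v))] at h2
    have h3 : (2 : R) * polar (D.H t i) (emb v) (emb (D.Th t v)) = 0 := by linear_combination h2
    exact (mul_eq_zero.1 h3).resolve_left two_ne_zero
  have h4 : D.H t i (emb (D.Th t v)) = -D.del t * D.h t i v := by
    have h5 := skewH D t i v (D.Th t v)
    rw [Th_Th, map_smul, polar_smul_right, polar_self, polar_self] at h5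
    have h6 : (2 : R) * (D.H t i (emb (D.Th t v)) + D.del t * D.h t i v) = 0 := by
      unfold Dat.h
      simp only [smul_eq_mul, nsmul_eq_mul, Nat.cast_ofNat] at h5
      linear_combination h5
    linear_combination (mul_eq_zero.1 h6).resolve_left two_ne_zero
  have h7 : ∀ x y : Fin 5 → R, D.H t i (x + y) = D.H t i x + D.H t i y + polar (D.H t i) x y := by
    intro x y
    rw [polar]
    ring
  have h8 : D.k0 t s v * D.h t i v + D.k1 t s v * D.f t s i v + D.k2 t s v * D.f t s i (D.Th t v)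
      = 0 := by
    fin_cases i <;> simp only [Dat.k0, Dat.k1, Dat.k2, Fin.zero_eta, Fin.mk_one] <;> ring
  have h9 : D.H t i (emb (D.k1 t s v • v + D.k2 t s v • D.Th t v)) = D.sig t s v * D.h t i v := by
    rw [map_add, map_smul, map_smul, h7, QuadraticMap.map_smul, QuadraticMap.map_smul,
      polar_smul_left, polar_smul_right, h1, h4]
    simp only [Dat.sig, Dat.h, smul_eq_mul]
    ring
  have h10 : polar (D.H t i) s (emb (D.k1 t s v • v + D.k2 t s v • D.Th t v)) =
      D.k1 t s v * D.f t s i v + D.k2 t s v * D.f t s i (D.Th t v) := by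
    have := f_add D t s i (D.k1 t s v • v) (D.k2 t s v • D.Th t v)
    rw [f_smul, f_smul] at this
    exact this
  rw [Dat.xi5, h7, QuadraticMap.map_smul, QuadraticMap.map_smul, hs, h9, polar_smul_left,
    polar_smul_right, h10]
  simp only [smul_eq_mul]
  linear_combination D.sig t s v * D.k0 t s v * h8

theorem Q_lift (D : Dat) (t : Fin 2 → R) (v : Fin 5 → R) (h1 : D.H1 t v = 0) :
    D.Q (D.lift t v) 0 = t 0 * v 4 ^ 2 * D.Bq R 1 v ∧
      D.Q (D.lift t v) 1 = t 0 * D.Q (D.lift t v) 0 ∧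
      D.Q (D.lift t v) 2 = t 1 * D.Q (D.lift t v) 0 := by
  have h5 : v5 (D.lift t v) = (t 0 * v 4) • v := by
    funext i
    fin_cases i <;> rfl
  have h4 : D.lift t v 4 = t 0 * v 4 * v 4 := rfl
  have h6 : D.lift t v 5 = D.Bq R 1 v - t 0 * D.Bq R 0 v := rfl
  rw [H1_apply] at h1
  simp only [Q_apply, h5, QuadraticMap.map_smul, h4, h6, if_true, smul_eq_mul,
    show ((1 : Fin 3) = 0) = False from by simp, show ((2 : Fin 3) = 0) = False from by simp,
    if_false]
  refine ⟨by ring, by ring, ?_⟩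
  linear_combination t 0 * v 4 ^ 2 * h1

theorem cubic_lift [IsDomain R] (D : Dat) (t : Fin 2 → R) (v : Fin 5 → R) (h0 : t 0 ≠ 0)
    (h4 : v 4 ≠ 0) (h1 : D.H1 t v = 0) (h2 : D.H2 t v = 0) : D.cubic (D.lift t v) = 0 := by
  obtain ⟨e0, e1, e2⟩ := Q_lift D t v h1
  have h5 : v5 (D.lift t v) = (t 0 * v 4) • v := by
    funext i
    fin_cases i <;> rfl
  have h6 := H2_eq D t (D.lift t v)
  rw [h5, QuadraticMap.map_smul, h2, e1, smul_zero] at h6
  have h7 : t 0 * ∑ i, tv t i * D.C (D.lift t v) i = 0 := by linear_combination -h6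
  have h8 := (mul_eq_zero.1 h7).resolve_left h0
  have h9 := w_mul_cubic D (D.lift t v)
  have h10 : ∑ i, D.Q (D.lift t v) i * D.C (D.lift t v) i =
      D.Q (D.lift t v) 0 * ∑ i, tv t i * D.C (D.lift t v) i := by
    simp only [Fin.sum_univ_three, e1, e2, tv]
    simp
    ring
  rw [h10, h8, mul_zero] at h9
  refine (mul_eq_zero.1 h9).resolve_left ?_
  exact mul_ne_zero (mul_ne_zero h0 h4) h4

/-- recovery of the parameters `S`, `P` from a point of the plane -/
theorem recover (D : Dat) (t : Fin 2 → R) (S P α β : R) (u : Fin 4 → R)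
    (hu : u = α • D.vh t S P + β • D.Th t (D.vh t S P)) :
    D.n t 1 0 * u 2 + D.n t 1 1 * u 3 = -(2 * cc R D.a * D.dt t * β) ∧
      u 0 = α - D.kap t * β ∧ u 1 = S * u 0 + 2 * cc R D.b * D.dt t * β * P ∧
      D.n t 0 0 * u 2 + D.n t 0 1 * u 3 =
        D.dt t * (P * (α + D.kap t * β) + 2 * cc R D.a * β * S) := by
  subst hu
  simp only [Pi.add_apply, Pi.smul_apply, Th_apply, Dat.vh, smul_eq_mul, Dat.dt]
  simp
  refine ⟨by ring, by ring, by ring, by ring⟩

end Pool.Agent.Helper69.SD
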